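import Pool.Agent.H34Z.Main

/-!
# Relations closed under meets and joins: the exponent `3/2`
-/

set_option autoImplicit false
set_option linter.unusedSectionVars false

namespace Pool.Agent.H34Z

open Finset
open scoped Classical

section

variable {X Y : Type*} [Fintype X] [Fintype Y]

/-- closed under componentwise meets and joins -/
structure Lat [Lattice X] [Lattice Y] (E : X → Y → Prop) : Prop where
  inf : ∀ x y x' y', E x y → E x' y' → E (x ⊓ x') (y ⊓ y')
  sup : ∀ x y x' y', E x y → E x' y' → E (x ⊔ x') (y ⊔ y')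

variable [Lattice X] [Lattice Y] {E : X → Y → Prop} {t : ℕ}

theorem Lat.flip (h : Lat E) : Lat (fun y x => E x y) where
  inf y x y' x' h1 h2 := h.inf x y x' y' h1 h2
  sup y x y' x' h1 h2 := h.sup x y x' y' h1 h2

theorem Lat.dual (h : Lat E) : @Lat Xᵒᵈ Yᵒᵈ _ _ E where
  inf x y x' y' h1 h2 := h.sup x y x' y' h1 h2
  sup x y x' y' h1 h2 := h.inf x y x' y' h1 h2

theorem Lat.supX (h : Lat E) {a b : X} {y : Y} (ha : E a y) (hb : E b y) : E (a ⊔ b) y := by
  have := h.sup _ _ _ _ ha hb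
  rwa [sup_idem] at this

theorem Lat.infX (h : Lat E) {a b : X} {y : Y} (ha : E a y) (hb : E b y) : E (a ⊓ b) y := by
  have := h.inf _ _ _ _ ha hb
  rwa [inf_idem] at this

theorem Lat.dn_or (h : Lat E) (hK : NoK t E) (x : X) (y : Y) :
    #(dn E x y) < t ∨ #(dn (fun y x => E x y) y x) < t := by
  by_contra hcon
  push Not at hcon
  refine hK _ _ hcon.1 hcon.2 fun x' hx' y' hy' => ?_
  rw [dn, mem_filter] at hx' hy'
  have := h.inf _ _ _ _ hx'.2.1 hy'.2.1
  rwa [inf_eq_left.2 hx'.2.2, inf_eq_right.2 hy'.2.2] at this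

theorem Lat.up_or (h : Lat E) (hK : NoK t E) (x : X) (y : Y) :
    #(up E x y) < t ∨ #(up (fun y x => E x y) y x) < t :=
  Lat.dn_or (X := Xᵒᵈ) (Y := Yᵒᵈ) (E := E) h.dual hK x y

/-- A common neighbour of two elements is a neighbour of all the elements in between. -/
theorem Lat.between (h : Lat E) {x x' x'' : X} {y y'' : Y} (h1 : E x y'') (h2 : E x' y'')
    (h3 : E x'' y) (h4 : x ⊓ x' ≤ x'') (h5 : x'' ≤ x ⊔ x') : E x'' y'' := by
  have h6 := h.inf _ _ _ _ h3 (h.supX h1 h2)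
  rw [inf_eq_left.2 h5] at h6
  have h7 := h.sup _ _ _ _ h6 (h.infX h1 h2)
  rwa [sup_eq_left.2 h4, sup_eq_right.2 inf_le_right] at h7

/-- the common neighbours of two elements -/
noncomputable def co (E : X → Y → Prop) (x x' : X) : Finset Y :=
  univ.filter fun y => E x y ∧ E x' y

theorem Lat.co_lt (h : Lat E) (hK : NoK t E) {x x' : X} {y : Y} (S : Finset X)
    (hS : ∀ x'' ∈ S, E x'' y ∧ x ⊓ x' ≤ x'' ∧ x'' ≤ x ⊔ x') (hc : t ≤ #S) :
    #(co E x x') < t := by
  by_contra hcon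
  push Not at hcon
  refine hK S _ hc hcon fun x'' hx'' y'' hy'' => ?_
  rw [co, mem_filter] at hy''
  obtain ⟨h1, h2, h3⟩ := hS x'' hx''
  exact h.between hy''.2.1 hy''.2.2 h1 h2 h3

/-- the low neighbours of `y` -/
noncomputable def Q (E : X → Y → Prop) (t : ℕ) (y : Y) : Finset X :=
  univ.filter fun x => E x y ∧ #(dn E x y) < t

/-- the maximal low neighbours of `y` -/
noncomputable def M (E : X → Y → Prop) (t : ℕ) (y : Y) : Finset X :=
  (Q E t y).filter fun x => ∀ x' ∈ Q E t y, x ≤ x' → x' = x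

theorem mem_Q {x : X} {y : Y} : x ∈ Q E t y ↔ E x y ∧ #(dn E x y) < t := by simp [Q]

theorem M_sub {y : Y} : M E t y ⊆ Q E t y := filter_subset _ _

theorem card_Q (y : Y) : #(Q E t y) ≤ t * #(M E t y) := by
  have h1 : Q E t y ⊆ (M E t y).biUnion fun x => dn E x y := by
    intro x hx
    obtain ⟨b, hb, hmax⟩ := Finset.exists_le_maximal (Q E t y) hx
    rw [mem_biUnion]
    refine ⟨b, mem_filter.2 ⟨hmax.prop, fun x' hx' hle => ?_⟩,
      mem_filter.2 ⟨mem_univ _, (mem_Q.1 hx).1, hb⟩⟩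
    exact le_antisymm (hmax.le_of_ge hx' hle) hle
  calc #(Q E t y) ≤ ∑ x ∈ M E t y, #(dn E x y) := (card_le_card h1).trans card_biUnion_le
    _ ≤ ∑ x ∈ M E t y, t := sum_le_sum fun x hx => (mem_Q.1 (M_sub hx)).2.le
    _ = t * #(M E t y) := by rw [sum_const, smul_eq_mul, mul_comm]

theorem Lat.join_high (h : Lat E) (hK : NoK t E) {x x' : X} {y : Y} (hx : x ∈ M E t y)
    (hx' : x' ∈ M E t y) (hne : x ≠ x') : #(dn (fun y x => E x y) y (x ⊔ x')) < t := by
  refine (h.dn_or hK (x ⊔ x') y).resolve_left fun hlow => hne ?_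
  rw [M, mem_filter] at hx hx'
  have h1 : x ⊔ x' ∈ Q E t y := mem_Q.2 ⟨h.supX (mem_Q.1 hx.1).1 (mem_Q.1 hx'.1).1, hlow⟩
  rw [← hx.2 _ h1 le_sup_left]
  exact hx'.2 _ h1 le_sup_right

/-- the `y` for which `x`, `x'` are maximal low neighbours and `y` is near the top neighbour of
`x ⊓ x'` -/
noncomputable def Z (E : X → Y → Prop) (t : ℕ) (x x' : X) : Finset Y :=
  univ.filter fun y => x ∈ M E t y ∧ x' ∈ M E t y ∧ x ≠ x' ∧
    #(up (fun y x => E x y) y (x ⊓ x')) < t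

theorem mem_Z {x x' : X} {y : Y} : y ∈ Z E t x x' ↔ x ∈ M E t y ∧ x' ∈ M E t y ∧ x ≠ x' ∧
    #(up (fun y x => E x y) y (x ⊓ x')) < t := by simp [Z]

theorem Lat.Z_good (h : Lat E) (hK : NoK t E) {x x' : X} (hZ : t ^ 3 < #(Z E t x x')) {y : Y}
    (hy : y ∈ Z E t x x') :
    #(Z E t x x') ≤ t ^ 2 *
      #((Z E t x x').filter fun y'' => #(co (fun y x => E x y) y y'') < t) := by
  obtain ⟨hx, hx', hne, hup⟩ := mem_Z.1 hy
  have hdn := h.join_high hK hx hx' hne
  have hmaps : ∀ y'' ∈ Z E t x x', (y ⊓ y'', y ⊔ y'') ∈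
      dn (fun y x => E x y) y (x ⊔ x') ×ˢ up (fun y x => E x y) y (x ⊓ x') := by
    intro y'' hy''
    obtain ⟨hx2, hx2', -, -⟩ := mem_Z.1 hy''
    have e1 := (mem_Q.1 (M_sub hx)).1
    have e2 := (mem_Q.1 (M_sub hx')).1
    have e3 := (mem_Q.1 (M_sub hx2)).1
    have e4 := (mem_Q.1 (M_sub hx2')).1
    rw [mem_product]
    refine ⟨mem_filter.2 ⟨mem_univ _, ?_, inf_le_left⟩, mem_filter.2 ⟨mem_univ _, ?_, le_sup_left⟩⟩
    · exact h.flip.infX (h.supX e1 e2) (h.supX e3 e4)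
    · exact h.flip.supX (h.infX e1 e2) (h.infX e3 e4)
  have hcard : #(dn (fun y x => E x y) y (x ⊔ x') ×ˢ up (fun y x => E x y) y (x ⊓ x')) ≤ t ^ 2 := by
    rw [card_product, pow_two]
    exact Nat.mul_le_mul hdn.le hup.le
  obtain ⟨c, hc, hbig⟩ : ∃ c ∈ dn (fun y x => E x y) y (x ⊔ x') ×ˢ
      up (fun y x => E x y) y (x ⊓ x'),
      #(Z E t x x') ≤ t ^ 2 * #((Z E t x x').filter fun y'' => (y ⊓ y'', y ⊔ y'') = c) := by
    by_contra hcon
    push Not at hcon
    have h1 := card_eq_sum_card_fiberwise (f := fun y'' => (y ⊓ y'', y ⊔ y'')) (s := Z E t x x')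
      (t := dn (fun y x => E x y) y (x ⊔ x') ×ˢ up (fun y x => E x y) y (x ⊓ x')) hmaps
    have ht : 0 < t := by
      by_contra h0
      have : t = 0 := by omega
      subst this
      exact absurd hup (Nat.not_lt_zero _)
    have hne2 : (dn (fun y x => E x y) y (x ⊔ x') ×ˢ up (fun y x => E x y) y (x ⊓ x')).Nonempty :=
      ⟨_, hmaps y hy⟩
    have h2 : t ^ 2 * #(Z E t x x') < t ^ 2 * #(Z E t x x') := by
      calc t ^ 2 * #(Z E t x x') = ∑ c ∈ dn (fun y x => E x y) y (x ⊔ x') ×ˢ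
            up (fun y x => E x y) y (x ⊓ x'),
            t ^ 2 * #((Z E t x x').filter fun y'' => (y ⊓ y'', y ⊔ y'') = c) := by
            rw [← mul_sum, ← h1]
        _ < ∑ c ∈ dn (fun y x => E x y) y (x ⊔ x') ×ˢ up (fun y x => E x y) y (x ⊓ x'),
            #(Z E t x x') := sum_lt_sum_of_nonempty hne2 fun c hc => hcon c hc
        _ = #(dn (fun y x => E x y) y (x ⊔ x') ×ˢ up (fun y x => E x y) y (x ⊓ x')) *
            #(Z E t x x') := by rw [sum_const, smul_eq_mul]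
        _ ≤ t ^ 2 * #(Z E t x x') := Nat.mul_le_mul_right _ hcard
    exact lt_irrefl _ h2
  refine hbig.trans (Nat.mul_le_mul_left _ (card_le_card fun y'' hy'' => ?_))
  have hy2 := mem_filter.1 hy''
  refine mem_filter.2 ⟨hy2.1, ?_⟩
  refine h.flip.co_lt hK.flip (y := x) ((Z E t x x').filter fun y'' => (y ⊓ y'', y ⊔ y'') = c)
    (fun w hw => ?_) ?_
  · rw [mem_filter] at hw
    have h1 := (mem_Q.1 (M_sub (mem_Z.1 hw.1).1)).1
    have h3 : y ⊓ y'' = y ⊓ w := congrArg Prod.fst (hy2.2.trans hw.2.symm)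
    have h4 : y ⊔ y'' = y ⊔ w := congrArg Prod.snd (hy2.2.trans hw.2.symm)
    rw [h3, h4]
    exact ⟨h1, inf_le_right, le_sup_right⟩
  · by_contra hcon
    push Not at hcon
    have : #(Z E t x x') ≤ t ^ 3 := by
      calc #(Z E t x x') ≤ _ := hbig
        _ ≤ t ^ 2 * t := Nat.mul_le_mul_left _ hcon.le
        _ = t ^ 3 := by ring
    omega

theorem Lat.Z_sq (h : Lat E) (hK : NoK t E) (x x' : X) :
    #(Z E t x x') ^ 2 ≤ t ^ 6 + t ^ 2 * #((univ : Finset (Y × Y)).filter fun p =>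
      p.1 ∈ Z E t x x' ∧ p.2 ∈ Z E t x x' ∧ #(co (fun y x => E x y) p.1 p.2) < t) := by
  rcases Nat.lt_or_ge (t ^ 3) #(Z E t x x') with hZ | hZ
  · refine le_trans ?_ (Nat.le_add_left _ _)
    have h1 : #((univ : Finset (Y × Y)).filter fun p =>
        p.1 ∈ Z E t x x' ∧ p.2 ∈ Z E t x x' ∧ #(co (fun y x => E x y) p.1 p.2) < t) =
        ∑ y ∈ Z E t x x', #((Z E t x x').filter fun y'' => #(co (fun y x => E x y) y y'') < t) := by
      rw [card_eq_sum_card_fiberwise (f := Prod.fst) (t := Z E t x x')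
        (fun p hp => by
          rw [mem_coe, mem_filter] at hp
          exact hp.2.1)]
      refine sum_congr rfl fun y hy => ?_
      refine card_bij' (fun p _ => p.2) (fun y'' _ => (y, y'')) ?_ ?_ ?_ ?_
      · rintro ⟨a, b⟩ hp
        rw [mem_filter, mem_filter] at hp
        rw [mem_filter]
        obtain ⟨⟨-, -, h2, h3⟩, h4⟩ := hp
        simp only at h2 h3 h4
        subst h4
        exact ⟨h2, h3⟩
      · intro y'' hy''
        rw [mem_filter] at hy''
        rw [mem_filter, mem_filter]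
        exact ⟨⟨mem_univ _, hy, hy''.1, hy''.2⟩, rfl⟩
      · rintro ⟨a, b⟩ hp
        rw [mem_filter, mem_filter] at hp
        have h4 := hp.2
        simp only at h4
        rw [h4]
      · intro y'' _; rfl
    rw [h1, mul_sum, pow_two]
    nth_rw 1 [card_eq_sum_ones (Z E t x x'), sum_mul]
    exact sum_le_sum fun y hy => by rw [one_mul]; exact h.Z_good hK hZ hy
  · refine le_trans ?_ (Nat.le_add_right _ _)
    calc #(Z E t x x') ^ 2 ≤ (t ^ 3) ^ 2 := Nat.pow_le_pow_left hZ 2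
      _ = t ^ 6 := by ring

theorem Lat.sum_Z (h : Lat E) (hK : NoK t E) :
    ∑ p : X × X, #(Z E t p.1 p.2) ≤
      t ^ 6 * Fintype.card X ^ 2 + t ^ 4 * Fintype.card Y ^ 2 := by
  have h1 : ∑ p : X × X, #((univ : Finset (Y × Y)).filter fun r =>
      r.1 ∈ Z E t p.1 p.2 ∧ r.2 ∈ Z E t p.1 p.2 ∧ #(co (fun y x => E x y) r.1 r.2) < t) ≤
      t ^ 2 * Fintype.card Y ^ 2 := by
    have h2 := sum_card_bipartiteAbove_eq_sum_card_bipartiteBelow
      (r := fun (p : X × X) (r : Y × Y) =>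
        r.1 ∈ Z E t p.1 p.2 ∧ r.2 ∈ Z E t p.1 p.2 ∧ #(co (fun y x => E x y) r.1 r.2) < t)
      (s := (univ : Finset (X × X))) (t := (univ : Finset (Y × Y)))
    simp only [bipartiteAbove, bipartiteBelow] at h2
    rw [h2]
    have h3 : Fintype.card Y ^ 2 = #(univ : Finset (Y × Y)) := by
      rw [card_univ, Fintype.card_prod, pow_two]
    rw [h3, mul_comm, ← smul_eq_mul, ← sum_const]
    refine sum_le_sum fun r _ => ?_
    by_cases hr : #(co (fun y x => E x y) r.1 r.2) < t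
    · calc _ ≤ #(co (fun y x => E x y) r.1 r.2 ×ˢ co (fun y x => E x y) r.1 r.2) := by
            refine card_le_card fun p hp => ?_
            rw [mem_filter] at hp
            obtain ⟨-, hp1, hp2, -⟩ := hp
            rw [mem_product]
            exact ⟨mem_filter.2 ⟨mem_univ _, (mem_Q.1 (M_sub (mem_Z.1 hp1).1)).1,
              (mem_Q.1 (M_sub (mem_Z.1 hp2).1)).1⟩, mem_filter.2 ⟨mem_univ _,
              (mem_Q.1 (M_sub (mem_Z.1 hp1).2.1)).1, (mem_Q.1 (M_sub (mem_Z.1 hp2).2.1)).1⟩⟩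
        _ ≤ t ^ 2 := by
            rw [card_product, pow_two]
            exact Nat.mul_le_mul hr.le hr.le
    · rw [filter_eq_empty_iff.2 fun p _ hp => hr hp.2.2]
      simp
  calc ∑ p : X × X, #(Z E t p.1 p.2) ≤ ∑ p : X × X, #(Z E t p.1 p.2) ^ 2 :=
        sum_le_sum fun p _ => Nat.le_self_pow (by norm_num) _
    _ ≤ ∑ p : X × X, (t ^ 6 + t ^ 2 * #((univ : Finset (Y × Y)).filter fun r =>
        r.1 ∈ Z E t p.1 p.2 ∧ r.2 ∈ Z E t p.1 p.2 ∧ #(co (fun y x => E x y) r.1 r.2) < t)) :=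
        sum_le_sum fun p _ => h.Z_sq hK p.1 p.2
    _ ≤ t ^ 6 * Fintype.card X ^ 2 + t ^ 2 * (t ^ 2 * Fintype.card Y ^ 2) := by
        rw [sum_add_distrib, ← mul_sum, sum_const, card_univ, Fintype.card_prod, smul_eq_mul,
          mul_comm (_ * _) (t ^ 6), ← pow_two]
        exact Nat.add_le_add_left (Nat.mul_le_mul_left _ h1) _
    _ = _ := by ring

theorem Lat.M_sq (h : Lat E) (hK : NoK t E) (y : Y) :
    #(M E t y) ^ 2 ≤ (t ^ 2 + 1) * #(M E t y) +
      #(univ.filter fun p : X × X => y ∈ Z E t p.1 p.2) := by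
  have h1 : M E t y ×ˢ M E t y ⊆ ((M E t y).image fun x => (x, x)) ∪
      ((M E t y).biUnion fun x => ((dn E x y).filter fun m => #(up E m y) < t).biUnion
        fun m => (up E m y).image fun x' => (x, x')) ∪
      (univ.filter fun p : X × X => y ∈ Z E t p.1 p.2) := by
    rintro ⟨x, x'⟩ hp
    rw [mem_product] at hp
    rw [mem_union, mem_union]
    by_cases hne : x = x'
    · left; left
      rw [mem_image]
      exact ⟨x, hp.1, by rw [← hne]⟩
    by_cases hup : #(up (fun y x => E x y) y (x ⊓ x')) < t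
    · right
      exact mem_filter.2 ⟨mem_univ _, mem_Z.2 ⟨hp.1, hp.2, hne, hup⟩⟩
    · left; right
      have h2 := (h.up_or hK (x ⊓ x') y).resolve_right hup
      have e1 := (mem_Q.1 (M_sub hp.1)).1
      have e2 := (mem_Q.1 (M_sub hp.2)).1
      rw [mem_biUnion]
      refine ⟨x, hp.1, ?_⟩
      rw [mem_biUnion]
      refine ⟨x ⊓ x', mem_filter.2 ⟨mem_filter.2 ⟨mem_univ _, h.infX e1 e2, inf_le_left⟩, h2⟩, ?_⟩
      rw [mem_image]
      exact ⟨x', mem_filter.2 ⟨mem_univ _, e2, inf_le_right⟩, rfl⟩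
  have h2 : #((M E t y).biUnion fun x => ((dn E x y).filter fun m => #(up E m y) < t).biUnion
        fun m => (up E m y).image fun x' => (x, x')) ≤ t ^ 2 * #(M E t y) := by
    refine card_biUnion_le.trans ?_
    rw [mul_comm, ← smul_eq_mul, ← sum_const]
    refine sum_le_sum fun x hx => card_biUnion_le.trans ?_
    calc ∑ m ∈ (dn E x y).filter fun m => #(up E m y) < t, #((up E m y).image fun x' => (x, x'))
        ≤ ∑ m ∈ (dn E x y).filter fun m => #(up E m y) < t, t :=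
          sum_le_sum fun m hm => card_image_le.trans (mem_filter.1 hm).2.le
      _ ≤ t ^ 2 := by
          rw [sum_const, smul_eq_mul, pow_two]
          exact Nat.mul_le_mul_right _ ((card_le_card (filter_subset _ _)).trans
            (mem_Q.1 (M_sub hx)).2.le)
  calc #(M E t y) ^ 2 = #(M E t y ×ˢ M E t y) := by rw [card_product, pow_two]
    _ ≤ _ := (card_le_card h1).trans ((card_union_le _ _).trans
        (Nat.add_le_add_right ((card_union_le _ _).trans (Nat.add_le_add card_image_le h2)) _))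
    _ = _ := by ring

/-- the sum over one side -/
theorem Lat.sum_Q (h : Lat E) (hK : NoK t E) :
    (∑ y, #(Q E t y)) ^ 2 ≤ (t ^ 2 * (4 * (t ^ 2 + 1) ^ 2 + 2 * (t ^ 6 + t ^ 4))) *
      (Fintype.card X + Fintype.card Y) ^ 3 := by
  set n := Fintype.card X + Fintype.card Y with hn
  set S := ∑ y, #(M E t y) with hS
  have h1 : ∑ y, #(M E t y) ^ 2 ≤ (t ^ 2 + 1) * S + (t ^ 6 + t ^ 4) * n ^ 2 := by
    calc ∑ y, #(M E t y) ^ 2 ≤ ∑ y, ((t ^ 2 + 1) * #(M E t y) +
          #(univ.filter fun p : X × X => y ∈ Z E t p.1 p.2)) := sum_le_sum fun y _ => h.M_sq hK y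
      _ = (t ^ 2 + 1) * S + ∑ y, #(univ.filter fun p : X × X => y ∈ Z E t p.1 p.2) := by
          rw [sum_add_distrib, ← mul_sum]
      _ = (t ^ 2 + 1) * S + ∑ p : X × X, #(Z E t p.1 p.2) := by
          congr 1
          have h2 := sum_card_bipartiteAbove_eq_sum_card_bipartiteBelow
            (r := fun (y : Y) (p : X × X) => y ∈ Z E t p.1 p.2)
            (s := (univ : Finset Y)) (t := (univ : Finset (X × X)))
          simp only [bipartiteAbove, bipartiteBelow] at h2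
          rw [h2]
          refine sum_congr rfl fun p _ => ?_
          congr 1
          ext y
          simp
      _ ≤ (t ^ 2 + 1) * S + (t ^ 6 * Fintype.card X ^ 2 + t ^ 4 * Fintype.card Y ^ 2) :=
          Nat.add_le_add_left (h.sum_Z hK) _
      _ ≤ _ := by
          refine Nat.add_le_add_left ?_ _
          rw [add_mul]
          exact Nat.add_le_add (Nat.mul_le_mul_left _ (Nat.pow_le_pow_left (by omega) _))
            (Nat.mul_le_mul_left _ (Nat.pow_le_pow_left (by omega) _))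
  have h2 : S ^ 2 ≤ n * ((t ^ 2 + 1) * S + (t ^ 6 + t ^ 4) * n ^ 2) := by
    have h3 := sq_sum_le_card_mul_sum_sq (s := (univ : Finset Y)) (f := fun y => #(M E t y))
    rw [card_univ] at h3
    calc S ^ 2 ≤ Fintype.card Y * ∑ y, #(M E t y) ^ 2 := h3
      _ ≤ n * ∑ y, #(M E t y) ^ 2 := Nat.mul_le_mul_right _ (by omega)
      _ ≤ _ := Nat.mul_le_mul_left _ h1
  have h3 : S ^ 2 ≤ (4 * (t ^ 2 + 1) ^ 2 + 2 * (t ^ 6 + t ^ 4)) * n ^ 3 := by
    obtain ⟨a, ha⟩ : ∃ a, a = t ^ 2 + 1 := ⟨_, rfl⟩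
    obtain ⟨b, hb⟩ : ∃ b, b = t ^ 6 + t ^ 4 := ⟨_, rfl⟩
    rw [← ha, ← hb] at h2 ⊢
    rcases Nat.eq_zero_or_pos n with h0 | h0
    · rw [h0] at h2 ⊢
      simpa using h2
    rcases Nat.lt_or_ge (2 * n * a) S with h4 | h4
    · have h5 : 2 * (n * (a * S)) ≤ S ^ 2 := by nlinarith
      have h6 : S ^ 2 ≤ 2 * (b * n ^ 3) := by
        have : n * (a * S + b * n ^ 2) = n * (a * S) + b * n ^ 3 := by ring
        omega
      nlinarith [Nat.zero_le (4 * a ^ 2 * n ^ 3)]
    · calc S ^ 2 ≤ (2 * n * a) ^ 2 := Nat.pow_le_pow_left h4 2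
        _ = 4 * a ^ 2 * n ^ 2 := by ring
        _ ≤ 4 * a ^ 2 * n ^ 3 := Nat.mul_le_mul_left _ (Nat.pow_le_pow_right h0 (by norm_num))
        _ ≤ _ := Nat.mul_le_mul_right _ (Nat.le_add_right _ _)
  calc (∑ y, #(Q E t y)) ^ 2 ≤ (∑ y, t * #(M E t y)) ^ 2 :=
        Nat.pow_le_pow_left (sum_le_sum fun y _ => card_Q y) 2
    _ = t ^ 2 * S ^ 2 := by rw [← mul_sum, mul_pow]
    _ ≤ t ^ 2 * ((4 * (t ^ 2 + 1) ^ 2 + 2 * (t ^ 6 + t ^ 4)) * n ^ 3) := Nat.mul_le_mul_left _ h3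
    _ = _ := by ring

/-- **The exponent `3/2`** for relations between two lattices closed under meets and joins. -/
theorem Lat.bound (h : Lat E) (hK : NoK t E) :
    #(univ.filter fun e : X × Y => E e.1 e.2) ^ 2 ≤
      4 * (t ^ 2 * (4 * (t ^ 2 + 1) ^ 2 + 2 * (t ^ 6 + t ^ 4))) *
        (Fintype.card X + Fintype.card Y) ^ 3 := by
  have h1 := h.sum_Q hK
  have h2 := h.flip.sum_Q hK.flip
  rw [Nat.add_comm (Fintype.card Y)] at h2
  have h3 : #(univ.filter fun e : X × Y => E e.1 e.2) ≤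
      ∑ y, #(Q E t y) + ∑ x, #(Q (fun y x => E x y) t x) := by
    have h4 := cover (P := fun e : X × Y => E e.1 e.2)
      (Q := fun e => e.1 ∈ Q E t e.2) (R := fun e => e.2 ∈ Q (fun y x => E x y) t e.1)
      (fun e he => by
        rcases h.dn_or hK e.1 e.2 with h5 | h5
        · exact Or.inl (mem_Q.2 ⟨he, h5⟩)
        · exact Or.inr (mem_Q.2 ⟨he, h5⟩))
    rw [card_pairs' (fun x y => x ∈ Q E t y), card_pairs (fun x y => y ∈ Q (fun y x => E x y) t x)]
      at h4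
    simpa using h4
  set a := ∑ y, #(Q E t y)
  set b := ∑ x, #(Q (fun y x => E x y) t x)
  calc #(univ.filter fun e : X × Y => E e.1 e.2) ^ 2 ≤ (a + b) ^ 2 := Nat.pow_le_pow_left h3 2
    _ ≤ 2 * (a ^ 2 + b ^ 2) := add_sq_le
    _ ≤ _ := by nlinarith

end

end Pool.Agent.H34Z
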