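import Pool.Agent.H34Z.Rel

/-!
# Relations closed under meets and joins with distributive neighbourhoods: the linear bound
-/

set_option autoImplicit false
set_option linter.unusedSectionVars false

namespace Pool.Agent.H34Z

open Finset
open scoped Classical

section

variable {X Y : Type*} [Fintype X] [Fintype Y]

theorem card_pairs (P : X → Y → Prop) [DecidablePred fun e : X × Y => P e.1 e.2]
    [∀ x, DecidablePred fun y => P x y] :
    #(univ.filter fun e : X × Y => P e.1 e.2) = ∑ x, #(univ.filter fun y => P x y) := by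
  simp only [card_filter, Fintype.sum_prod_type]

theorem card_pairs' (P : X → Y → Prop) [DecidablePred fun e : X × Y => P e.1 e.2]
    [∀ y, DecidablePred fun x => P x y] :
    #(univ.filter fun e : X × Y => P e.1 e.2) = ∑ y, #(univ.filter fun x => P x y) := by
  simp only [card_filter, Fintype.sum_prod_type]
  rw [sum_comm]

variable [Lattice X] [Lattice Y] {E : X → Y → Prop} {T : X → Y} {B : Y → X} {t C : ℕ}

/-- the pairs of two vertices of large degree, `y` is near the top neighbour of `x`, and the class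
of `y` is not larger than the one of `x` -/
theorem part_one (h : Good E) (hT : Top E T) (hB : ∀ x y, E x y → E (B y) y ∧ B y ≤ x)
    (hK : NoK t E) (ht : 1 ≤ t)
    (hC : ∀ a w : ℕ, a ≤ w → (∀ R, phi R t < a → 2 ^ (R - 2 * t) ≤ w) → a ^ 2 ≤ C * w) :
    #(univ.filter fun e : X × Y => E e.1 e.2 ∧ t ≤ #(nb E e.1) ∧
      t ≤ #(nb (fun y x => E x y) e.2) ∧ #(up (fun y x => E x y) e.2 e.1) < t ∧
      #(cl (fun y x => E x y) B t (B e.2)) ≤ #(cl E T t (T e.1))) ≤
      phi (2 * t) t * C * Fintype.card X := by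
  rw [card_pairs (fun x y => E x y ∧ t ≤ #(nb E x) ∧
      t ≤ #(nb (fun y x => E x y) y) ∧ #(up (fun y x => E x y) y x) < t ∧
      #(cl (fun y x => E x y) B t (B y)) ≤ #(cl E T t (T x)))]
  -- the bound for each `x`
  have h1 : ∀ x : X, #(univ.filter fun y => E x y ∧ t ≤ #(nb E x) ∧
      t ≤ #(nb (fun y x => E x y) y) ∧ #(up (fun y x => E x y) y x) < t ∧
      #(cl (fun y x => E x y) B t (B y)) ≤ #(cl E T t (T x))) ≤
      if t ≤ #(nb E x) then phi (2 * t) t * #(cl E T t (T x)) else 0 := by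
    intro x
    split_ifs with hx
    · have h2 : #((univ.filter fun y => E x y ∧ #(up (fun y x => E x y) y x) < t).image B) ≤
          phi (2 * t) t :=
        few_tops (X := Yᵒᵈ) (Y := Xᵒᵈ) (E := fun y x => E x y) (T := B) (t := t) h.flip.dual
          (fun y x hxy => hB x y hxy) hK.flip x
      calc _ ≤ #((((univ.filter fun y => E x y ∧ #(up (fun y x => E x y) y x) < t).image B).filter
              fun β => #(cl (fun y x => E x y) B t β) ≤ #(cl E T t (T x))).biUnion
              fun β => cl (fun y x => E x y) B t β) := by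
            refine card_le_card fun y hy => ?_
            rw [mem_filter] at hy
            rw [mem_biUnion]
            exact ⟨B y, mem_filter.2 ⟨mem_image.2 ⟨y, mem_filter.2 ⟨mem_univ _, hy.2.1,
              hy.2.2.2.2.1⟩, rfl⟩, hy.2.2.2.2.2⟩, mem_filter.2 ⟨mem_univ _, rfl, hy.2.2.2.1⟩⟩
        _ ≤ ∑ β ∈ (((univ.filter fun y => E x y ∧ #(up (fun y x => E x y) y x) < t).image
              B).filter fun β => #(cl (fun y x => E x y) B t β) ≤ #(cl E T t (T x))),
              #(cl (fun y x => E x y) B t β) := card_biUnion_le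
        _ ≤ ∑ β ∈ (((univ.filter fun y => E x y ∧ #(up (fun y x => E x y) y x) < t).image
              B).filter fun β => #(cl (fun y x => E x y) B t β) ≤ #(cl E T t (T x))),
              #(cl E T t (T x)) := sum_le_sum fun β hβ => (mem_filter.1 hβ).2
        _ ≤ _ := by
            rw [sum_const, smul_eq_mul]
            exact Nat.mul_le_mul_right _ ((card_le_card (filter_subset _ _)).trans h2)
    · refine (card_eq_zero.2 (filter_eq_empty_iff.2 fun y _ hy => hx hy.2.1)).le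
  -- the classes
  have h2 : ∀ τ : Y, #(cl E T t τ) ^ 2 ≤ C * #(univ.filter fun x => T x = τ ∧ E x τ) := by
    intro τ
    refine hC _ _ (card_le_card fun x hx => ?_) (fun R => class_pow h hT hK ht τ R)
    have h1 := (mem_filter.1 hx).2
    obtain ⟨y, hy⟩ := card_pos.1 (by omega : 0 < #(nb E x))
    have h2 := (hT x y (mem_nb.1 hy)).1
    rw [h1.1] at h2
    exact mem_filter.2 ⟨mem_univ _, h1.1, h2⟩
  have h3 : ∑ x, (if t ≤ #(nb E x) then #(cl E T t (T x)) else 0) = ∑ τ, #(cl E T t τ) ^ 2 := by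
    rw [← sum_fiberwise (s := univ) (g := T)]
    refine sum_congr rfl fun τ _ => ?_
    rw [pow_two]
    nth_rw 1 [cl]
    rw [card_eq_sum_ones, sum_mul]
    simp only [one_mul, ← sum_filter, filter_filter]
    refine sum_congr ?_ fun x hx => ?_
    · ext x
      simp
    · rw [(mem_filter.1 hx).2.1]
  have h4 : ∑ τ, #(univ.filter fun x => T x = τ ∧ E x τ) ≤ Fintype.card X := by
    calc ∑ τ, #(univ.filter fun x => T x = τ ∧ E x τ) ≤ ∑ τ, #(univ.filter fun x => T x = τ) :=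
          sum_le_sum fun τ _ => card_le_card fun x hx => by
            rw [mem_filter] at hx ⊢
            exact ⟨hx.1, hx.2.1⟩
      _ = Fintype.card X := by
          rw [← card_univ, card_eq_sum_card_fiberwise (f := T) (t := univ) fun _ _ => by simp]
  calc _ ≤ ∑ x, (if t ≤ #(nb E x) then phi (2 * t) t * #(cl E T t (T x)) else 0) :=
        sum_le_sum fun x _ => h1 x
    _ = phi (2 * t) t * ∑ x, (if t ≤ #(nb E x) then #(cl E T t (T x)) else 0) := by
        rw [mul_sum]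
        refine sum_congr rfl fun x _ => ?_
        split_ifs <;> simp
    _ = phi (2 * t) t * ∑ τ, #(cl E T t τ) ^ 2 := by rw [h3]
    _ ≤ phi (2 * t) t * ∑ τ, C * #(univ.filter fun x => T x = τ ∧ E x τ) :=
        Nat.mul_le_mul_left _ (sum_le_sum fun τ _ => h2 τ)
    _ = phi (2 * t) t * (C * ∑ τ, #(univ.filter fun x => T x = τ ∧ E x τ)) := by
        rw [← mul_sum]
    _ ≤ phi (2 * t) t * (C * Fintype.card X) :=
        Nat.mul_le_mul_left _ (Nat.mul_le_mul_left _ h4)
    _ = _ := by ring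

/-- the same with the roles of `X` and `Y` exchanged and with the orders reversed -/
theorem part_two (h : Good E) (hT : Top E T) (hB : ∀ x y, E x y → E (B y) y ∧ B y ≤ x)
    (hK : NoK t E) (ht : 1 ≤ t)
    (hC : ∀ a w : ℕ, a ≤ w → (∀ R, phi R t < a → 2 ^ (R - 2 * t) ≤ w) → a ^ 2 ≤ C * w) :
    #(univ.filter fun e : X × Y => E e.1 e.2 ∧ t ≤ #(nb E e.1) ∧
      t ≤ #(nb (fun y x => E x y) e.2) ∧ #(dn E e.1 e.2) < t ∧
      #(cl E T t (T e.1)) ≤ #(cl (fun y x => E x y) B t (B e.2))) ≤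
      phi (2 * t) t * C * Fintype.card Y := by
  have h1 : #(univ.filter fun e : Y × X => E e.2 e.1 ∧ t ≤ #(nb (fun y x => E x y) e.1) ∧
      t ≤ #(nb E e.2) ∧ #(dn E e.2 e.1) < t ∧
      #(cl E T t (T e.2)) ≤ #(cl (fun y x => E x y) B t (B e.1))) ≤
      phi (2 * t) t * C * Fintype.card Y :=
    part_one (X := Yᵒᵈ) (Y := Xᵒᵈ) (E := fun y x => E x y) (T := B) (B := T) (t := t) (C := C)
      h.flip.dual (fun y x hxy => hB x y hxy) (fun y x hxy => hT x y hxy) hK.flip ht hC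
  refine le_trans (le_of_eq ?_) h1
  refine card_bij' (fun e _ => e.swap) (fun e _ => e.swap) ?_ ?_ ?_ ?_
  · rintro ⟨x, y⟩ he
    rw [mem_filter] at he ⊢
    exact ⟨mem_univ _, he.2.1, he.2.2.2.1, he.2.2.1, he.2.2.2.2.1, he.2.2.2.2.2⟩
  · rintro ⟨y, x⟩ he
    rw [mem_filter] at he ⊢
    exact ⟨mem_univ _, he.2.1, he.2.2.2.1, he.2.2.1, he.2.2.2.2.1, he.2.2.2.2.2⟩
  · intro e _; rfl
  · intro e _; rfl

/-- in each neighbourhood with an element near the top and near the bottom there are few elements -/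
theorem part_three (h : Good E) :
    #(univ.filter fun e : X × Y => E e.1 e.2 ∧ #(dn E e.1 e.2) < t ∧ #(up E e.1 e.2) < t) ≤
      t * t * Fintype.card Y := by
  rw [card_pairs' (fun x y => E x y ∧ #(dn E x y) < t ∧ #(up E x y) < t), mul_comm,
    ← card_univ, ← smul_eq_mul, ← sum_const]
  refine sum_le_sum fun y _ => ?_
  rcases (univ.filter fun x => E x y ∧ #(dn E x y) < t ∧ #(up E x y) < t).eq_empty_or_nonempty with
    h0 | ⟨x, hx⟩
  · rw [h0]; simp
  · rw [mem_filter] at hx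
    have h1 : #(univ.filter fun x => E x y ∧ #(dn E x y) < t ∧ #(up E x y) < t) ≤
        #(dn E x y ×ˢ up E x y) := by
      refine card_le_card_of_injOn (fun z => (z ⊓ x, z ⊔ x)) ?_ ?_
      · intro z hz
        rw [mem_coe, mem_filter] at hz
        rw [mem_coe, mem_product]
        exact ⟨mem_filter.2 ⟨mem_univ _, h.infX hz.2.1 hx.2.1, inf_le_right⟩,
          mem_filter.2 ⟨mem_univ _, h.supX hz.2.1 hx.2.1, le_sup_right⟩⟩
      · intro z hz z' hz' heq
        rw [mem_coe, mem_filter] at hz hz'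
        simp only [Prod.mk.injEq] at heq
        have hd := h.dX y
        calc z = z ⊓ (z ⊔ x) := by rw [inf_eq_left.2 le_sup_left]
          _ = z ⊓ (z' ⊔ x) := by rw [heq.2]
          _ = z ⊓ z' ⊔ z ⊓ x := hd _ _ _ hz.2.1 hz'.2.1 hx.2.1
          _ = z' ⊓ z ⊔ z' ⊓ x := by rw [inf_comm, heq.1]
          _ = z' ⊓ (z ⊔ x) := (hd _ _ _ hz'.2.1 hz.2.1 hx.2.1).symm
          _ = z' ⊓ (z' ⊔ x) := by rw [heq.2]
          _ = z' := inf_eq_left.2 le_sup_left
    rw [card_product] at h1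
    exact h1.trans (Nat.mul_le_mul hx.2.2.1.le hx.2.2.2.le)

/-- few neighbours below in one of the two directions -/
theorem dn_or (h : Good E) (hK : NoK t E) {x : X} {y : Y} (_ : E x y) :
    #(dn E x y) < t ∨ #(dn (fun y x => E x y) y x) < t := by
  by_contra hcon
  push Not at hcon
  refine hK _ _ hcon.1 hcon.2 fun x' hx' y' hy' => ?_
  rw [dn, mem_filter] at hx' hy'
  have := h.inf _ _ _ _ hx'.2.1 hy'.2.1
  rwa [inf_eq_left.2 hx'.2.2, inf_eq_right.2 hy'.2.2] at this

theorem up_or (h : Good E) (hK : NoK t E) {x : X} {y : Y} (hxy : E x y) :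
    #(up E x y) < t ∨ #(up (fun y x => E x y) y x) < t :=
  dn_or (X := Xᵒᵈ) (Y := Yᵒᵈ) (E := E) h.dual hK hxy

theorem few_small (t : ℕ) : #(univ.filter fun e : X × Y => E e.1 e.2 ∧ #(nb E e.1) < t) ≤
    t * Fintype.card X := by
  rw [card_pairs (fun x y => E x y ∧ #(nb E x) < t), mul_comm, ← card_univ, ← smul_eq_mul,
    ← sum_const]
  refine sum_le_sum fun x _ => ?_
  by_cases hx : #(nb E x) < t
  · refine le_trans (card_le_card fun y hy => ?_) hx.le
    exact mem_nb.2 (mem_filter.1 hy).2.1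
  · rw [filter_eq_empty_iff.2 fun y _ hy => hx hy.2]
    simp

end

theorem card_swap {X Y : Type*} [Fintype X] [Fintype Y] (P : X → Y → Prop)
    [DecidablePred fun e : X × Y => P e.1 e.2] [DecidablePred fun e : Y × X => P e.2 e.1] :
    #(univ.filter fun e : X × Y => P e.1 e.2) = #(univ.filter fun e : Y × X => P e.2 e.1) := by
  refine card_bij' (fun e _ => e.swap) (fun e _ => e.swap) ?_ ?_ ?_ ?_
  · rintro ⟨x, y⟩ he
    simpa using he
  · rintro ⟨y, x⟩ he
    simpa using he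
  · intro e _; rfl
  · intro e _; rfl

theorem cover {α : Type*} [Fintype α] {P Q R : α → Prop} [DecidablePred P] [DecidablePred Q]
    [DecidablePred R] (h : ∀ a, P a → Q a ∨ R a) :
    #(univ.filter P) ≤ #(univ.filter Q) + #(univ.filter R) := by
  refine le_trans (card_le_card fun a ha => ?_) (card_union_le _ _)
  rw [mem_union, mem_filter, mem_filter]
  rw [mem_filter] at ha
  rcases h a ha.2 with h | h
  · exact Or.inl ⟨mem_univ _, h⟩
  · exact Or.inr ⟨mem_univ _, h⟩

theorem cover8 {α : Type*} [Fintype α] {P Q₁ Q₂ Q₃ Q₄ Q₅ Q₆ Q₇ Q₈ : α → Prop} [DecidablePred P]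
    [DecidablePred Q₁] [DecidablePred Q₂] [DecidablePred Q₃] [DecidablePred Q₄]
    [DecidablePred Q₅] [DecidablePred Q₆] [DecidablePred Q₇] [DecidablePred Q₈]
    (h : ∀ a, P a → Q₁ a ∨ Q₂ a ∨ Q₃ a ∨ Q₄ a ∨ Q₅ a ∨ Q₆ a ∨ Q₇ a ∨ Q₈ a) :
    #(univ.filter P) ≤ #(univ.filter Q₁) + (#(univ.filter Q₂) + (#(univ.filter Q₃) +
      (#(univ.filter Q₄) + (#(univ.filter Q₅) + (#(univ.filter Q₆) + (#(univ.filter Q₇) +
      #(univ.filter Q₈))))))) := by
  refine (cover h).trans (Nat.add_le_add_left ?_ _)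
  refine (cover fun _ => id).trans (Nat.add_le_add_left ?_ _)
  refine (cover fun _ => id).trans (Nat.add_le_add_left ?_ _)
  refine (cover fun _ => id).trans (Nat.add_le_add_left ?_ _)
  refine (cover fun _ => id).trans (Nat.add_le_add_left ?_ _)
  refine (cover fun _ => id).trans (Nat.add_le_add_left ?_ _)
  exact cover fun _ => id

/-- **The linear bound.** -/
theorem linear (t : ℕ) (ht : 1 ≤ t) : ∃ C : ℕ, ∀ (X Y : Type*) [Fintype X] [Fintype Y] [Lattice X]
    [Lattice Y] (E : X → Y → Prop), Good E → NoK t E →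
    #(univ.filter fun e : X × Y => E e.1 e.2) ≤ C * (Fintype.card X + Fintype.card Y) := by
  obtain ⟨C, hC⟩ := growth t
  set M := phi (2 * t) t * C with hM
  refine ⟨t + t * t + 2 * M, ?_⟩
  intro X Y _ _ _ _ E h hK
  rcases isEmpty_or_nonempty X with hX | ⟨⟨x₀⟩⟩
  · simp
  rcases isEmpty_or_nonempty Y with hY | ⟨⟨y₀⟩⟩
  · simp
  obtain ⟨T, hT⟩ := exists_top h y₀
  obtain ⟨T', hT'⟩ := exists_top h.flip x₀
  obtain ⟨B, hB⟩ : ∃ B : Y → X, ∀ x y, E x y → E (B y) y ∧ B y ≤ x := by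
    obtain ⟨B, hB⟩ := exists_top (X := Yᵒᵈ) (Y := Xᵒᵈ) h.flip.dual x₀
    exact ⟨B, fun x y hxy => hB y x hxy⟩
  obtain ⟨B', hB'⟩ : ∃ B : X → Y, ∀ x y, E x y → E x (B x) ∧ B x ≤ y := by
    obtain ⟨B, hB⟩ := exists_top (X := Xᵒᵈ) (Y := Yᵒᵈ) h.dual y₀
    exact ⟨B, fun x y hxy => hB x y hxy⟩
  -- the pieces
  have p1 := few_small (E := E) t
  have p2 : #(univ.filter fun e : X × Y => E e.1 e.2 ∧ #(nb (fun y x => E x y) e.2) < t) ≤
      t * Fintype.card Y := by
    rw [card_swap (fun x y => E x y ∧ #(nb (fun y x => E x y) y) < t)]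
    exact few_small (E := fun y x => E x y) t
  have p3 := part_three (t := t) h
  have p4 : #(univ.filter fun e : X × Y => E e.1 e.2 ∧ #(dn (fun y x => E x y) e.2 e.1) < t ∧
      #(up (fun y x => E x y) e.2 e.1) < t) ≤ t * t * Fintype.card X := by
    rw [card_swap (fun x y => E x y ∧ #(dn (fun y x => E x y) y x) < t ∧
      #(up (fun y x => E x y) y x) < t)]
    exact part_three (t := t) h.flip
  have p5 := part_one (t := t) (C := C) h hT hB hK ht hC
  have p6 := part_two (t := t) (C := C) h hT hB hK ht hC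
  have p7 : #(univ.filter fun e : X × Y => E e.1 e.2 ∧ t ≤ #(nb (fun y x => E x y) e.2) ∧
      t ≤ #(nb E e.1) ∧ #(up E e.1 e.2) < t ∧
      #(cl E B' t (B' e.1)) ≤ #(cl (fun y x => E x y) T' t (T' e.2))) ≤ M * Fintype.card Y := by
    rw [card_swap (fun x y => E x y ∧ t ≤ #(nb (fun y x => E x y) y) ∧
      t ≤ #(nb E x) ∧ #(up E x y) < t ∧
      #(cl E B' t (B' x)) ≤ #(cl (fun y x => E x y) T' t (T' y)))]
    exact part_one (t := t) (C := C) h.flip hT' (fun y x hxy => hB' x y hxy) hK.flip ht hC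
  have p8 : #(univ.filter fun e : X × Y => E e.1 e.2 ∧ t ≤ #(nb (fun y x => E x y) e.2) ∧
      t ≤ #(nb E e.1) ∧ #(dn (fun y x => E x y) e.2 e.1) < t ∧
      #(cl (fun y x => E x y) T' t (T' e.2)) ≤ #(cl E B' t (B' e.1))) ≤ M * Fintype.card X := by
    rw [card_swap (fun x y => E x y ∧ t ≤ #(nb (fun y x => E x y) y) ∧
      t ≤ #(nb E x) ∧ #(dn (fun y x => E x y) y x) < t ∧
      #(cl (fun y x => E x y) T' t (T' y)) ≤ #(cl E B' t (B' x)))]
    exact part_two (t := t) (C := C) h.flip hT' (fun y x hxy => hB' x y hxy) hK.flip ht hC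
  have hcov := cover8 (P := fun e : X × Y => E e.1 e.2)
    (Q₁ := fun e => E e.1 e.2 ∧ #(nb E e.1) < t)
    (Q₂ := fun e => E e.1 e.2 ∧ #(nb (fun y x => E x y) e.2) < t)
    (Q₃ := fun e => E e.1 e.2 ∧ #(dn E e.1 e.2) < t ∧ #(up E e.1 e.2) < t)
    (Q₄ := fun e => E e.1 e.2 ∧ #(dn (fun y x => E x y) e.2 e.1) < t ∧
      #(up (fun y x => E x y) e.2 e.1) < t)
    (Q₅ := fun e => E e.1 e.2 ∧ t ≤ #(nb E e.1) ∧
      t ≤ #(nb (fun y x => E x y) e.2) ∧ #(up (fun y x => E x y) e.2 e.1) < t ∧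
      #(cl (fun y x => E x y) B t (B e.2)) ≤ #(cl E T t (T e.1)))
    (Q₆ := fun e => E e.1 e.2 ∧ t ≤ #(nb E e.1) ∧
      t ≤ #(nb (fun y x => E x y) e.2) ∧ #(dn E e.1 e.2) < t ∧
      #(cl E T t (T e.1)) ≤ #(cl (fun y x => E x y) B t (B e.2)))
    (Q₇ := fun e => E e.1 e.2 ∧ t ≤ #(nb (fun y x => E x y) e.2) ∧
      t ≤ #(nb E e.1) ∧ #(up E e.1 e.2) < t ∧
      #(cl E B' t (B' e.1)) ≤ #(cl (fun y x => E x y) T' t (T' e.2)))
    (Q₈ := fun e => E e.1 e.2 ∧ t ≤ #(nb (fun y x => E x y) e.2) ∧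
      t ≤ #(nb E e.1) ∧ #(dn (fun y x => E x y) e.2 e.1) < t ∧
      #(cl (fun y x => E x y) T' t (T' e.2)) ≤ #(cl E B' t (B' e.1))) ?_
  · have e1 : (t + t * t + 2 * M) * (Fintype.card X + Fintype.card Y) =
      t * Fintype.card X + (t * Fintype.card Y + (t * t * Fintype.card Y +
      (t * t * Fintype.card X + (M * Fintype.card X + (M * Fintype.card Y +
      (M * Fintype.card Y + M * Fintype.card X)))))) := by ring
    rw [e1]
    exact hcov.trans (Nat.add_le_add p1 (Nat.add_le_add p2 (Nat.add_le_add p3 (Nat.add_le_add p4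
      (Nat.add_le_add p5 (Nat.add_le_add p6 (Nat.add_le_add p7 p8)))))))
  · rintro ⟨x, y⟩ hxy
    simp only at hxy ⊢
    by_cases hx : #(nb E x) < t
    · exact Or.inl ⟨hxy, hx⟩
    refine Or.inr ?_
    by_cases hy : #(nb (fun y x => E x y) y) < t
    · exact Or.inl ⟨hxy, hy⟩
    refine Or.inr ?_
    push Not at hx hy
    rcases dn_or h hK hxy with a1 | a1 <;> rcases up_or h hK hxy with a2 | a2
    · exact Or.inl ⟨hxy, a1, a2⟩
    · rcases le_total #(cl (fun y x => E x y) B t (B y)) #(cl E T t (T x)) with a3 | a3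
      · exact Or.inr (Or.inr (Or.inl ⟨hxy, hx, hy, a2, a3⟩))
      · exact Or.inr (Or.inr (Or.inr (Or.inl ⟨hxy, hx, hy, a1, a3⟩)))
    · rcases le_total #(cl (fun y x => E x y) T' t (T' y)) #(cl E B' t (B' x)) with a3 | a3
      · exact Or.inr (Or.inr (Or.inr (Or.inr (Or.inr ⟨hxy, hy, hx, a1, a3⟩))))
      · exact Or.inr (Or.inr (Or.inr (Or.inr (Or.inl ⟨hxy, hy, hx, a2, a3⟩))))
    · exact Or.inr (Or.inl ⟨hxy, a1, a2⟩)

end Pool.Agent.H34Z
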