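import Mathlib

/-!
# The lattice of the flats of an affine plane
-/

set_option autoImplicit false

namespace Pool.Agent.H34Z

open Set
open scoped Classical

variable (p : ℕ)

/-- the points with `y = m x + c` -/
def line (b : ZMod p × ZMod p) : Set (ZMod p × ZMod p) := {a | a.2 = b.1 * a.1 + b.2}

/-- the empty set, the points, the lines which are not vertical, and the whole plane -/
def IsFlat (S : Set (ZMod p × ZMod p)) : Prop :=
  S = ∅ ∨ (∃ a, S = {a}) ∨ (∃ b, S = line p b) ∨ S = univ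

/-- the flats, ordered by inclusion -/
abbrev Fl : Type := {S : Set (ZMod p × ZMod p) // IsFlat p S}

variable {p}

theorem line_unique [Fact p.Prime] {a a' b b' : ZMod p × ZMod p} (hne : a ≠ a')
    (h1 : a ∈ line p b) (h2 : a' ∈ line p b) (h3 : a ∈ line p b') (h4 : a' ∈ line p b') :
    b = b' := by
  simp only [line, mem_ofPred_eq] at h1 h2 h3 h4
  have hx : a.1 ≠ a'.1 := by
    intro h
    apply hne
    refine Prod.ext h ?_
    rw [h1, h2, h]
  have h5 : (b.1 - b'.1) * (a.1 - a'.1) = 0 := by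
    have : b.1 * a.1 + b.2 - (b.1 * a'.1 + b.2) = b'.1 * a.1 + b'.2 - (b'.1 * a'.1 + b'.2) := by
      rw [← h1, ← h2, ← h3, ← h4]
    linear_combination this
  rcases mul_eq_zero.1 h5 with h6 | h6
  · have h7 : b.1 = b'.1 := sub_eq_zero.1 h6
    refine Prod.ext h7 ?_
    have : b.1 * a.1 + b.2 = b'.1 * a.1 + b'.2 := by rw [← h1, ← h3]
    rw [h7] at this
    exact add_left_cancel this
  · exact absurd (sub_eq_zero.1 h6) hx

/-- a flat which contains two given points is one of at most two sets -/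
theorem flat_of_two [Fact p.Prime] {a a' : ZMod p × ZMod p} (hne : a ≠ a')
    {S : Set (ZMod p × ZMod p)} (hS : IsFlat p S) (ha : a ∈ S) (ha' : a' ∈ S) :
    S = univ ∨ ∃ b, S = line p b := by
  rcases hS with h | ⟨c, h⟩ | h | h
  · rw [h] at ha; exact absurd ha (notMem_empty a)
  · rw [h] at ha ha'
    exact absurd (ha.trans ha'.symm) hne
  · exact Or.inr h
  · exact Or.inl h

theorem isFlat_sInter [Fact p.Prime] (s : Set (Set (ZMod p × ZMod p)))
    (hs : ∀ S ∈ s, IsFlat p S) : IsFlat p (⋂₀ s) := by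
  by_cases h2 : ∃ a ∈ ⋂₀ s, ∃ a' ∈ ⋂₀ s, a ≠ a'
  · obtain ⟨a, ha, a', ha', hne⟩ := h2
    by_cases hl : ∃ b, line p b ∈ s
    · obtain ⟨b, hb⟩ := hl
      right; right; left
      refine ⟨b, Subset.antisymm (sInter_subset_of_mem hb) fun z hz => ?_⟩
      rw [mem_sInter]
      intro S hS
      rcases flat_of_two hne (hs S hS) (ha S hS) (ha' S hS) with h | ⟨b', h⟩
      · rw [h]; exact mem_univ z
      · rw [h]
        have h3 := ha S hS
        have h4 := ha' S hS
        rw [h] at h3 h4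
        rw [← line_unique hne (ha _ hb) (ha' _ hb) h3 h4]
        exact hz
    · right; right; right
      rw [sInter_eq_univ]
      intro S hS
      rcases flat_of_two hne (hs S hS) (ha S hS) (ha' S hS) with h | ⟨b', h⟩
      · exact h
      · exact absurd ⟨b', h ▸ hS⟩ hl
  · push Not at h2
    rcases (⋂₀ s).eq_empty_or_nonempty with h0 | ⟨a, ha⟩
    · exact Or.inl h0
    · right; left
      exact ⟨a, Subset.antisymm (fun z hz => h2 z hz a ha) (singleton_subset_iff.2 ha)⟩

noncomputable instance [Fact p.Prime] : InfSet (Fl p) :=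
  ⟨fun s => ⟨⋂₀ (Subtype.val '' s), isFlat_sInter _ (by
    rintro S ⟨T, -, rfl⟩
    exact T.2)⟩⟩

/-- The flats form a lattice. -/
@[instance_reducible] noncomputable def flLattice (p : ℕ) [Fact p.Prime] : CompleteLattice (Fl p) :=
  completeLatticeOfInf (Fl p) fun s => by
    constructor
    · intro T hT
      show ⋂₀ (Subtype.val '' s) ⊆ T.1
      exact sInter_subset_of_mem ⟨T, hT, rfl⟩
    · intro T hT
      show T.1 ⊆ ⋂₀ (Subtype.val '' s)
      refine subset_sInter ?_
      rintro _ ⟨U, hU, rfl⟩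
      exact hT hU

theorem card_fl [Fact p.Prime] : Nat.card (Fl p) ≤ 2 * p ^ 2 + 2 := by
  let f : Option (Option ((ZMod p × ZMod p) ⊕ (ZMod p × ZMod p))) → Fl p := fun x =>
    match x with
    | none => ⟨∅, Or.inl rfl⟩
    | some none => ⟨univ, Or.inr (Or.inr (Or.inr rfl))⟩
    | some (some (Sum.inl a)) => ⟨{a}, Or.inr (Or.inl ⟨a, rfl⟩)⟩
    | some (some (Sum.inr b)) => ⟨line p b, Or.inr (Or.inr (Or.inl ⟨b, rfl⟩))⟩
  have hf : Function.Surjective f := by
    rintro ⟨S, h | ⟨a, h⟩ | ⟨b, h⟩ | h⟩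
    · exact ⟨none, Subtype.ext h.symm⟩
    · exact ⟨some (some (Sum.inl a)), Subtype.ext h.symm⟩
    · exact ⟨some (some (Sum.inr b)), Subtype.ext h.symm⟩
    · exact ⟨some none, Subtype.ext h.symm⟩
  refine (Nat.card_le_card_of_surjective f hf).trans (le_of_eq ?_)
  rw [Nat.card_eq_fintype_card, Fintype.card_option, Fintype.card_option, Fintype.card_sum,
    Fintype.card_prod, ZMod.card]
  ring

/-- No three flats are contained in three other flats, up to equality. -/
theorem no_three [Fact p.Prime] (S T : Finset (Fl p)) (hS : 3 ≤ S.card) (hT : 3 ≤ T.card) :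
    ¬∀ x ∈ S, ∀ y ∈ T, x.1 ⊆ y.1 := by
  intro h
  by_cases h2 : ∃ a a', a ≠ a' ∧ ∀ y ∈ T, a ∈ y.1 ∧ a' ∈ y.1
  · obtain ⟨a, a', hne, h2⟩ := h2
    -- all elements of `T` are the plane or one line
    have h3 : ∀ y ∈ T, y.1 = univ ∨ ∃ b, y.1 = line p b := fun y hy =>
      flat_of_two hne y.2 (h2 y hy).1 (h2 y hy).2
    have h4 : ∀ y ∈ T, ∀ y' ∈ T, y.1 ≠ univ → y'.1 ≠ univ → y = y' := by
      intro y hy y' hy' hu hu'
      obtain ⟨b, hb⟩ := (h3 y hy).resolve_left hu
      obtain ⟨b', hb'⟩ := (h3 y' hy').resolve_left hu'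
      apply Subtype.ext
      rw [hb, hb']
      have e1 := h2 y hy
      have e2 := h2 y' hy'
      rw [hb] at e1
      rw [hb'] at e2
      rw [line_unique hne e1.1 e1.2 e2.1 e2.2]
    have h5 : (T.filter fun y => y.1 = univ).card ≤ 1 := by
      rw [Finset.card_le_one]
      intro y hy y' hy'
      rw [Finset.mem_filter] at hy hy'
      exact Subtype.ext (hy.2.trans hy'.2.symm)
    have h6 : (T.filter fun y => ¬y.1 = univ).card ≤ 1 := by
      rw [Finset.card_le_one]
      intro y hy y' hy'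
      rw [Finset.mem_filter] at hy hy'
      exact h4 y hy.1 y' hy'.1 hy.2 hy'.2
    have := Finset.card_filter_add_card_filter_not (s := T) (fun y : Fl p => y.1 = univ)
    omega
  · push Not at h2
    have h3 : ∀ x ∈ S, ∀ x' ∈ S, ∀ a ∈ x.1, ∀ a' ∈ x'.1, a = a' := by
      intro x hx x' hx' a ha a' ha'
      by_contra hne
      obtain ⟨y, hy, h4⟩ := h2 a a' hne
      exact h4 (h x hx y hy ha) (h x' hx' y hy ha')
    have h5 : (S.filter fun x => x.1 = ∅).card ≤ 1 := by
      rw [Finset.card_le_one]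
      intro y hy y' hy'
      rw [Finset.mem_filter] at hy hy'
      exact Subtype.ext (hy.2.trans hy'.2.symm)
    have h6 : (S.filter fun x => ¬x.1 = ∅).card ≤ 1 := by
      rw [Finset.card_le_one]
      intro y hy y' hy'
      rw [Finset.mem_filter] at hy hy'
      obtain ⟨a, ha⟩ := nonempty_iff_ne_empty.2 hy.2
      obtain ⟨a', ha'⟩ := nonempty_iff_ne_empty.2 hy'.2
      apply Subtype.ext
      ext z
      constructor
      · intro hz
        rw [h3 y hy.1 y' hy'.1 z hz a' ha']; exact ha'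
      · intro hz
        rw [h3 y' hy'.1 y hy.1 z hz a ha]; exact ha
    have := Finset.card_filter_add_card_filter_not (s := S) (fun y : Fl p => y.1 = ∅)
    omega

theorem many_pairs [Fact p.Prime] :
    p ^ 3 ≤ {e : Fl p × Fl p | e.1.1 ⊆ e.2.1}.ncard := by
  let g : ZMod p × ZMod p × ZMod p → Fl p × Fl p := fun q =>
    (⟨{(q.1, q.2.1 * q.1 + q.2.2)}, Or.inr (Or.inl ⟨_, rfl⟩)⟩,
      ⟨line p q.2, Or.inr (Or.inr (Or.inl ⟨_, rfl⟩))⟩)
  have hg : Function.Injective g := by
    rintro ⟨x, b⟩ ⟨x', b'⟩ h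
    have h1 : ({(x, b.1 * x + b.2)} : Set (ZMod p × ZMod p)) = {(x', b'.1 * x' + b'.2)} :=
      congrArg (fun z : Fl p × Fl p => z.1.1) h
    have h2 : line p b = line p b' := congrArg (fun z : Fl p × Fl p => z.2.1) h
    have hx : x = x' := by
      rw [singleton_eq_singleton_iff] at h1
      exact congrArg Prod.fst h1
    have hb : b = b' := by
      have e : ∀ z : ZMod p, (z, b.1 * z + b.2) ∈ line p b := fun z => rfl
      refine line_unique (a := (0, b.1 * 0 + b.2)) (a' := (1, b.1 * 1 + b.2)) ?_ (e 0) (e 1)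
        (h2 ▸ e 0) (h2 ▸ e 1)
      intro h3
      exact zero_ne_one (congrArg Prod.fst h3)
    rw [hx, hb]
  calc p ^ 3 = Nat.card (ZMod p × ZMod p × ZMod p) := by
        rw [Nat.card_eq_fintype_card, Fintype.card_prod, Fintype.card_prod, ZMod.card]
        ring
    _ = (Set.range g).ncard := by
        rw [← Nat.card_coe_set_eq, Nat.card_range_of_injective hg]
    _ ≤ _ := by
        refine Set.ncard_le_ncard ?_ (Set.toFinite _)
        rintro _ ⟨q, rfl⟩
        show ({(q.1, q.2.1 * q.1 + q.2.2)} : Set (ZMod p × ZMod p)) ⊆ line p q.2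
        rw [singleton_subset_iff]
        exact rfl

end Pool.Agent.H34Z
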