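import Pool.Agent.H34Z.Sun

/-!
# Relations closed under meets and joins with distributive neighbourhoods
-/

set_option autoImplicit false
set_option linter.unusedSectionVars false
set_option linter.unusedVariables false

namespace Pool.Agent.H34Z

open Finset
open scoped Classical

section

variable {X Y : Type*} [Fintype X] [Fintype Y]

/-- the neighbours in `Y` -/
noncomputable def nb (E : X → Y → Prop) (x : X) : Finset Y := univ.filter fun y => E x y

theorem mem_nb {E : X → Y → Prop} {x : X} {y : Y} : y ∈ nb E x ↔ E x y := by simp [nb]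

/-- the neighbours of `y` below `x` -/
noncomputable def dn [LE X] (E : X → Y → Prop) (x : X) (y : Y) : Finset X :=
  univ.filter fun x' => E x' y ∧ x' ≤ x

/-- the neighbours of `y` above `x` -/
noncomputable def up [LE X] (E : X → Y → Prop) (x : X) (y : Y) : Finset X :=
  univ.filter fun x' => E x' y ∧ x ≤ x'

/-- closed under componentwise meets and joins, the neighbourhoods are distributive -/
structure Good [Lattice X] [Lattice Y] (E : X → Y → Prop) : Prop where
  inf : ∀ x y x' y', E x y → E x' y' → E (x ⊓ x') (y ⊓ y')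
  sup : ∀ x y x' y', E x y → E x' y' → E (x ⊔ x') (y ⊔ y')
  dX : ∀ y a b c, E a y → E b y → E c y → a ⊓ (b ⊔ c) = a ⊓ b ⊔ a ⊓ c
  dY : ∀ x a b c, E x a → E x b → E x c → a ⊓ (b ⊔ c) = a ⊓ b ⊔ a ⊓ c

theorem Good.flip [Lattice X] [Lattice Y] {E : X → Y → Prop} (h : Good E) :
    Good (fun y x => E x y) where
  inf y x y' x' h1 h2 := h.inf x y x' y' h1 h2
  sup y x y' x' h1 h2 := h.sup x y x' y' h1 h2
  dX := h.dY
  dY := h.dX

theorem dual_dist {X : Type*} [Lattice X] {p : X → Prop} (hi : ∀ a b, p a → p b → p (a ⊓ b))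
    (hs : ∀ a b, p a → p b → p (a ⊔ b))
    (hd : ∀ a b c, p a → p b → p c → a ⊓ (b ⊔ c) = a ⊓ b ⊔ a ⊓ c) :
    ∀ a b c, p a → p b → p c → a ⊔ (b ⊓ c) = (a ⊔ b) ⊓ (a ⊔ c) := by
  intro a b c ha hb hc
  rw [hd (a ⊔ b) a c (hs _ _ ha hb) ha hc, inf_eq_right.2 (le_sup_left : a ≤ a ⊔ b),
    inf_comm (a ⊔ b) c, hd c a b hc ha hb, ← sup_assoc, sup_eq_left.2 (inf_le_right : c ⊓ a ≤ a),
    inf_comm c b]

theorem Good.supX [Lattice X] [Lattice Y] {E : X → Y → Prop} (h : Good E) {a b : X} {y : Y}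
    (ha : E a y) (hb : E b y) : E (a ⊔ b) y := by
  have := h.sup _ _ _ _ ha hb
  rwa [sup_idem] at this

theorem Good.infX [Lattice X] [Lattice Y] {E : X → Y → Prop} (h : Good E) {a b : X} {y : Y}
    (ha : E a y) (hb : E b y) : E (a ⊓ b) y := by
  have := h.inf _ _ _ _ ha hb
  rwa [inf_idem] at this

theorem Good.dual [Lattice X] [Lattice Y] {E : X → Y → Prop} (h : Good E) :
    @Good Xᵒᵈ Yᵒᵈ _ _ E where
  inf x y x' y' h1 h2 := h.sup x y x' y' h1 h2
  sup x y x' y' h1 h2 := h.inf x y x' y' h1 h2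
  dX y a b c ha hb hc := dual_dist (X := X) (p := fun x => E x y) (fun _ _ => h.infX)
    (fun _ _ => h.supX) (h.dX y) a b c ha hb hc
  dY x a b c ha hb hc := dual_dist (X := Y) (p := fun y => E x y) (fun _ _ => h.flip.infX)
    (fun _ _ => h.flip.supX) (h.dY x) a b c ha hb hc

/-- no complete bipartite relation of sizes `t`, `t` -/
def NoK (t : ℕ) (E : X → Y → Prop) : Prop :=
  ∀ (S : Finset X) (T : Finset Y), t ≤ #S → t ≤ #T → ¬∀ x ∈ S, ∀ y ∈ T, E x y

theorem NoK.flip {t : ℕ} {E : X → Y → Prop} (h : NoK t E) : NoK t (fun y x => E x y) :=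
  fun S T hS hT h' => h T S hT hS fun x hx y hy => h' y hy x hx

/-- `T x` is the largest neighbour of `x` -/
def Top [LE Y] (E : X → Y → Prop) (T : X → Y) : Prop := ∀ x y, E x y → E x (T x) ∧ y ≤ T x

variable [Lattice X] [Lattice Y] {E : X → Y → Prop} {T : X → Y} {t : ℕ}

theorem exists_top (h : Good E) (y₀ : Y) : ∃ T : X → Y, Top E T := by
  refine ⟨fun x => if hx : (nb E x).Nonempty then (nb E x).sup' hx id else y₀, fun x y hxy => ?_⟩
  have hne : (nb E x).Nonempty := ⟨y, mem_nb.2 hxy⟩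
  simp only [dif_pos hne]
  refine ⟨?_, Finset.le_sup' id (mem_nb.2 hxy)⟩
  exact Finset.sup'_mem {y | E x y} (fun a ha b hb => h.flip.supX ha hb) _ hne id
    fun i hi => mem_nb.1 hi

theorem top_mono (h : Good E) (hT : Top E T) {x x' : X} {y y' : Y} (h1 : E x y) (h2 : E x' y')
    (hxx : x ≤ x') : T x ≤ T x' := by
  have h3 := h.sup _ _ _ _ (hT x y h1).1 (hT x' y' h2).1
  rw [sup_eq_right.2 hxx] at h3
  exact le_sup_left.trans (hT x' _ h3).2

theorem top_inf (h : Good E) (hT : Top E T) {x x' : X} {y y' : Y} (h1 : E x y) (h2 : E x' y') :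
    T (x ⊓ x') = T x ⊓ T x' := by
  have h3 := h.inf _ _ _ _ (hT x y h1).1 (hT x' y' h2).1
  refine le_antisymm (le_inf (top_mono h hT h3 h1 inf_le_left) (top_mono h hT h3 h2 inf_le_right))
    (hT _ _ h3).2

/-- (iii) few values of `T` near the bottom of a neighbourhood -/
theorem few_tops (h : Good E) (hT : Top E T) (hK : NoK t E) (y : Y) :
    #((univ.filter fun x => E x y ∧ #(dn E x y) < t).image T) ≤ phi (2 * t) t := by
  by_contra hcon
  push Not at hcon
  obtain ⟨Q, hQ, hinj, himg⟩ := Finset.exists_subset_injOn_image_eq_of_surjOn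
    (f := T) (↑(univ.filter fun x => E x y ∧ #(dn E x y) < t) : Set X)
    ((univ.filter fun x => E x y ∧ #(dn E x y) < t).image T)
    (by rw [coe_image]; exact Set.surjOn_image _ _)
  have hQc : #Q = #((univ.filter fun x => E x y ∧ #(dn E x y) < t).image T) := by
    rw [← himg, card_image_of_injOn hinj]
  have hQ' : ∀ x ∈ Q, E x y ∧ #(dn E x y) < t := fun x hx => by
    have := hQ hx
    simpa using this
  obtain ⟨k, hk, S, hS, hSc, hlt, hmeet⟩ := sunflower (2 * t) t (univ.filter fun x => E x y) Q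
    (fun a ha b hb => by
      rw [mem_filter] at ha hb ⊢
      exact ⟨mem_univ _, h.infX ha.2 hb.2⟩)
    (fun x hx => mem_filter.2 ⟨mem_univ _, (hQ' x hx).1⟩)
    (fun x hx => by
      have h1 := (hQ' x hx).2
      have h2 : (univ.filter fun x => E x y).filter (· ≤ x) = dn E x y := by
        ext z
        simp [dn]
      rw [h2]
      omega)
    (by rw [hQc]; exact hcon)
  have hk' : E k y := (mem_filter.1 hk).2
  have hSy : ∀ x ∈ S, E x y := fun x hx => (hQ' x (hS hx)).1
  have hfl : Flower (fun x => E x y) k S :=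
    ⟨fun _ _ => h.supX, fun _ _ => h.infX, h.dX y, hk', hSy, hlt, hmeet⟩
  obtain ⟨S₀, hS₀, hS₀c⟩ := exists_subset_card_eq (s := S) (n := t) (by omega)
  have hS₁c : #(S \ S₀) = t := by
    rw [card_sdiff_of_subset hS₀]
    omega
  refine hK ((S \ S₀).image fun j => J k (insert j S₀)) (S₀.image T) ?_ ?_ ?_
  · rw [card_image_of_injOn, hS₁c]
    intro j hj j' hj' hjj
    rw [mem_coe, mem_sdiff] at hj hj'
    have h1 := hfl.J_inj (insert_subset hj.1 hS₀) (insert_subset hj'.1 hS₀) hjj
    have h2 : j ∈ insert j' S₀ := h1 ▸ mem_insert_self _ _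
    rw [mem_insert] at h2
    exact h2.resolve_right hj.2
  · rw [card_image_of_injOn, hS₀c]
    exact hinj.mono fun x hx => hS (hS₀ hx)
  · intro x hx z hz
    rw [mem_image] at hx hz
    obtain ⟨j, hj, rfl⟩ := hx
    obtain ⟨i, hi, rfl⟩ := hz
    rw [mem_sdiff] at hj
    have h1 : E (J k (insert j S₀)) y := hfl.pJ (insert_subset hj.1 hS₀)
    have h2 := hT i y (hSy i (hS₀ hi))
    have h3 := h.sup _ _ _ _ h1 h2.1
    rwa [sup_eq_left.2 (mem_le_J (mem_insert_of_mem hi)), sup_eq_right.2 h2.2] at h3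

/-- the vertices of large degree with a given top neighbour -/
noncomputable def cl (E : X → Y → Prop) (T : X → Y) (t : ℕ) (τ : Y) : Finset X :=
  univ.filter fun x => T x = τ ∧ t ≤ #(nb E x)

/-- (ii) a class with many vertices of large degree is much larger -/
theorem class_pow (h : Good E) (hT : Top E T) (hK : NoK t E) (ht : 1 ≤ t) (τ : Y) (R : ℕ)
    (hR : phi R t < #(cl E T t τ)) :
    2 ^ (R - 2 * t) ≤ #(univ.filter fun x => T x = τ ∧ E x τ) := by
  have hA : ∀ x ∈ cl E T t τ, T x = τ ∧ t ≤ #(nb E x) ∧ E x τ := by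
    intro x hx
    have h1 := (mem_filter.1 hx).2
    obtain ⟨y, hy⟩ := card_pos.1 (by omega : 0 < #(nb E x))
    have h2 := (hT x y (mem_nb.1 hy)).1
    rw [h1.1] at h2
    exact ⟨h1.1, h1.2, h2⟩
  obtain ⟨k, hk, S, hS, hSc, hlt, hmeet⟩ := sunflower R t (univ.filter fun x => E x τ)
    (cl E T t τ)
    (fun a ha b hb => by
      rw [mem_filter] at ha hb ⊢
      exact ⟨mem_univ _, h.infX ha.2 hb.2⟩)
    (fun x hx => mem_filter.2 ⟨mem_univ _, (hA x hx).2.2⟩)
    (fun x hx => by
      by_contra hcon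
      push Not at hcon
      refine hK _ _ hcon.le (hA x hx).2.1 fun x' hx' y hy => ?_
      rw [mem_filter, mem_filter] at hx'
      rw [mem_nb] at hy
      have h1 := h.inf _ _ _ _ hx'.1.2 hy
      have h2 := (hT x y hy).2
      rw [(hA x hx).1] at h2
      rwa [inf_eq_left.2 hx'.2, inf_eq_right.2 h2] at h1)
    hR
  have hk' : E k τ := (mem_filter.1 hk).2
  have hSτ : ∀ x ∈ S, E x τ := fun x hx => (hA x (hS hx)).2.2
  have hfl : Flower (fun x => E x τ) k S :=
    ⟨fun _ _ => h.supX, fun _ _ => h.infX, h.dX τ, hk', hSτ, hlt, hmeet⟩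
  have hne : (cl E T t τ).Nonempty := card_pos.1 (by omega)
  rcases Nat.eq_zero_or_pos R with h0 | h0
  · obtain ⟨x, hx⟩ := hne
    have : 0 < #(univ.filter fun x => T x = τ ∧ E x τ) :=
      card_pos.2 ⟨x, mem_filter.2 ⟨mem_univ _, (hA x hx).1, (hA x hx).2.2⟩⟩
    rw [h0]
    simpa using this
  have hkτ : T k = τ := by
    obtain ⟨x, hx⟩ := card_pos.1 (by omega : 0 < #S)
    refine le_antisymm ?_ (hT k τ hk').2
    have := top_mono h hT hk' (hSτ x hx) (hlt x hx).le
    rwa [(hA x (hS hx)).1] at this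
  obtain ⟨A, hAm, hmax⟩ := exists_max_image (S.powerset.filter fun A => T (J k A) = τ) card
    ⟨∅, mem_filter.2 ⟨by simp, by rw [J_empty]; exact hkτ⟩⟩
  rw [mem_filter, mem_powerset] at hAm
  have hup : ∀ B ⊆ S, τ ≤ T (J k B) := fun B hB => (hT _ τ (hfl.pJ hB)).2
  have hsmall : #(S \ A) < 2 * t := by
    by_contra hcon
    push Not at hcon
    obtain ⟨S₀, hS₀, hS₀c⟩ := exists_subset_card_eq (s := S \ A) (n := t) (by omega)
    have hS₁c : t ≤ #((S \ A) \ S₀) := by
      rw [card_sdiff_of_subset hS₀]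
      omega
    have hS₀S : S₀ ⊆ S := hS₀.trans sdiff_subset
    have hne' : ∀ i ∈ S, i ∉ A → T (J k (insert i A)) ≠ τ := by
      intro i hi hiA heq
      have := hmax (insert i A) (mem_filter.2 ⟨mem_powerset.2 (insert_subset hi hAm.1), heq⟩)
      rw [card_insert_of_notMem hiA] at this
      omega
    refine hK (((S \ A) \ S₀).image fun j => J k (insert j (S₀ ∪ A)))
      (S₀.image fun i => T (J k (insert i A))) ?_ ?_ ?_
    · rw [card_image_of_injOn]
      · exact hS₁c
      intro j hj j' hj' hjj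
      rw [mem_coe, mem_sdiff, mem_sdiff] at hj hj'
      have h1 := hfl.J_inj (insert_subset hj.1.1 (union_subset hS₀S hAm.1))
        (insert_subset hj'.1.1 (union_subset hS₀S hAm.1)) hjj
      have h2 : j ∈ insert j' (S₀ ∪ A) := h1 ▸ mem_insert_self _ _
      rw [mem_insert, mem_union] at h2
      rcases h2 with h2 | h2 | h2
      · exact h2
      · exact absurd h2 hj.2
      · exact absurd h2 hj.1.2
    · rw [card_image_of_injOn, hS₀c]
      intro i hi i' hi' hii
      by_contra hne2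
      have hi2 := mem_sdiff.1 (hS₀ hi)
      have hi2' := mem_sdiff.1 (hS₀ hi')
      have h1 := top_inf h hT (hfl.pJ (insert_subset hi2.1 hAm.1))
        (hfl.pJ (insert_subset hi2'.1 hAm.1))
      simp only at hii
      rw [hfl.J_insert_inf hi2.1 hi2'.1 hne2 hAm.1 hi2'.2, ← hii, inf_idem, hAm.2] at h1
      exact hne' i hi2.1 hi2.2 h1.symm
    · intro x hx z hz
      rw [mem_image] at hx hz
      obtain ⟨j, hj, rfl⟩ := hx
      obtain ⟨i, hi, rfl⟩ := hz
      rw [mem_sdiff, mem_sdiff] at hj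
      have hi2 := mem_sdiff.1 (hS₀ hi)
      have h1 : E (J k (insert j (S₀ ∪ A))) τ :=
        hfl.pJ (insert_subset hj.1.1 (union_subset hS₀S hAm.1))
      have h2 := hT _ τ (hfl.pJ (insert_subset hi2.1 hAm.1))
      have h3 := h.sup _ _ _ _ h1 h2.1
      have h4 : J k (insert i A) ≤ J k (insert j (S₀ ∪ A)) := by
        refine J_mono k (insert_subset ?_ ?_)
        · exact mem_insert_of_mem (mem_union_left _ hi)
        · exact fun a ha => mem_insert_of_mem (mem_union_right _ ha)
      rwa [sup_eq_left.2 h4, sup_eq_right.2 h2.2] at h3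
  have hAc : R - 2 * t ≤ #A := by
    have := card_sdiff_add_card_eq_card hAm.1
    omega
  calc 2 ^ (R - 2 * t) ≤ 2 ^ #A := Nat.pow_le_pow_right (by norm_num) hAc
    _ = #(A.powerset.image (J k)) := by
        rw [card_image_of_injOn, card_powerset]
        intro B hB B' hB' hBB
        rw [mem_coe, mem_powerset] at hB hB'
        exact hfl.J_inj (hB.trans hAm.1) (hB'.trans hAm.1) hBB
    _ ≤ _ := by
        refine card_le_card fun x hx => ?_
        rw [mem_image] at hx
        obtain ⟨B, hB, rfl⟩ := hx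
        rw [mem_powerset] at hB
        have h1 : E (J k B) τ := hfl.pJ (hB.trans hAm.1)
        refine mem_filter.2 ⟨mem_univ _, le_antisymm ?_ (hup B (hB.trans hAm.1)), h1⟩
        have := top_mono h hT h1 (hfl.pJ hAm.1) (J_mono k hB)
        rwa [hAm.2] at this

end

end Pool.Agent.H34Z
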