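import Mathlib

set_option autoImplicit false

namespace Pool.Agent.H34Z

open Finset
open scoped Classical

/-- the number in the sunflower lemma -/
def phi (R : ℕ) : ℕ → ℕ
  | 0 => 0
  | n + 1 => 1 + R * (n + 1) * phi R n

theorem phi_le (R n : ℕ) : phi R n ≤ (R * n + 1) ^ n := by
  induction n with
  | zero => simp [phi]
  | succ n ih =>
    show 1 + R * (n + 1) * phi R n ≤ _
    calc 1 + R * (n + 1) * phi R n ≤ (R * (n + 1) + 1) ^ n + R * (n + 1) * (R * (n + 1) + 1) ^ n := by
          refine Nat.add_le_add (Nat.one_le_pow _ _ (by omega)) (Nat.mul_le_mul_left _ (ih.trans ?_))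
          exact Nat.pow_le_pow_left (by nlinarith [Nat.zero_le R]) n
      _ = (R * (n + 1) + 1) ^ (n + 1) := by ring

/-- all pairwise meets are `u` -/
def Pw {X : Type*} [SemilatticeInf X] (u : X) (S : Finset X) : Prop :=
  ∀ x ∈ S, ∀ x' ∈ S, x ≠ x' → x ⊓ x' = u

/-- Sunflower lemma for elements near the bottom of a meet semilattice. -/
theorem sunflower {X : Type*} [SemilatticeInf X] (R n : ℕ) :
    ∀ L Q : Finset X, (∀ a ∈ L, ∀ b ∈ L, a ⊓ b ∈ L) → Q ⊆ L →
      (∀ x ∈ Q, #(L.filter (· ≤ x)) ≤ n) → phi R n < #Q →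
      ∃ k ∈ L, ∃ S ⊆ Q, #S = R ∧ (∀ x ∈ S, k < x) ∧ ∀ x ∈ S, ∀ x' ∈ S, x ≠ x' → x ⊓ x' = k := by
  induction n with
  | zero =>
    intro L Q _ hQ hn hc
    obtain ⟨x, hx⟩ : Q.Nonempty := card_pos.1 (by omega)
    have h1 := hn x hx
    have h2 : x ∈ L.filter (· ≤ x) := mem_filter.2 ⟨hQ hx, le_rfl⟩
    have := card_pos.2 ⟨x, h2⟩
    omega
  | succ n ih =>
    intro L Q hL hQ hn hc
    have hQne : Q.Nonempty := card_pos.1 (by omega)
    have hLne : L.Nonempty := hQne.mono hQ
    obtain ⟨u, huL, hu⟩ : ∃ u ∈ L, ∀ x ∈ L, u ≤ x := by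
      refine ⟨L.inf' hLne id, ?_, fun x hx => Finset.inf'_le id hx⟩
      exact Finset.inf'_mem {x | x ∈ L} (fun a ha b hb => hL a ha b hb) L hLne id (fun i hi => hi)
    -- a maximal family with pairwise meets `u`
    obtain ⟨S, hS, hmax⟩ := exists_max_image
      ((Q.erase u).powerset.filter fun S => Pw u S) card
      ⟨∅, mem_filter.2 ⟨by simp, fun x hx => absurd hx (notMem_empty x)⟩⟩
    rw [mem_filter, mem_powerset] at hS
    by_cases hR : R ≤ #S
    · obtain ⟨S', hS', hc'⟩ := exists_subset_card_eq hR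
      refine ⟨u, huL, S', fun x hx => mem_of_mem_erase (hS.1 (hS' hx)), hc', fun x hx => ?_,
        fun x hx x' hx' => hS.2 x (hS' hx) x' (hS' hx')⟩
      have := mem_erase.1 (hS.1 (hS' hx))
      exact lt_of_le_of_ne (hu x (hQ this.2)) (Ne.symm this.1)
    · push Not at hR
      have h1 : ∀ x ∈ Q.erase u, ∃ s ∈ S, x ⊓ s ≠ u := by
        intro x hx
        by_cases hxS : x ∈ S
        · exact ⟨x, hxS, by rw [inf_idem]; exact (mem_erase.1 hx).1⟩
        · by_contra hcon
          push Not at hcon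
          have h2 : insert x S ∈ (Q.erase u).powerset.filter fun S => Pw u S := by
            rw [mem_filter, mem_powerset]
            refine ⟨insert_subset hx hS.1, fun a ha b hb hab => ?_⟩
            rw [mem_insert] at ha hb
            rcases ha with rfl | ha <;> rcases hb with rfl | hb
            · exact absurd rfl hab
            · exact hcon b hb
            · rw [inf_comm]; exact hcon a ha
            · exact hS.2 a ha b hb hab
          have := hmax _ h2
          rw [card_insert_of_notMem hxS] at this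
          omega
      have h2 : Q.erase u ⊆ S.biUnion fun s => ((L.filter (· ≤ s)).erase u).biUnion
          fun v => Q.filter (v ≤ ·) := by
        intro x hx
        obtain ⟨s, hs, hne⟩ := h1 x hx
        rw [mem_biUnion]
        refine ⟨s, hs, ?_⟩
        rw [mem_biUnion]
        refine ⟨x ⊓ s, mem_erase.2 ⟨hne, mem_filter.2 ⟨hL _ (hQ (mem_of_mem_erase hx)) _
          (hQ (mem_of_mem_erase (hS.1 hs))), inf_le_right⟩⟩, mem_filter.2
          ⟨mem_of_mem_erase hx, inf_le_left⟩⟩
      obtain ⟨s, hs, v, hv, hbig⟩ : ∃ s ∈ S, ∃ v ∈ (L.filter (· ≤ s)).erase u,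
          phi R n < #(Q.filter (v ≤ ·)) := by
        by_contra hcon
        push Not at hcon
        have h3 : #(Q.erase u) ≤ #S * ((n + 1) * phi R n) := by
          refine (card_le_card h2).trans (card_biUnion_le.trans ?_)
          rw [← smul_eq_mul, ← sum_const]
          refine sum_le_sum fun s hs => card_biUnion_le.trans ?_
          refine (sum_le_sum fun v hv => hcon s hs v hv).trans ?_
          rw [sum_const, smul_eq_mul]
          refine Nat.mul_le_mul_right _ ((card_le_card (erase_subset _ _)).trans (hn s ?_))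
          exact mem_of_mem_erase (hS.1 hs)
        have h4 : #Q ≤ #(Q.erase u) + 1 := by
          have := pred_card_le_card_erase (s := Q) (a := u)
          omega
        have h5 : #S * ((n + 1) * phi R n) ≤ R * ((n + 1) * phi R n) :=
          Nat.mul_le_mul_right _ hR.le
        have h6 : phi R (n + 1) = 1 + R * (n + 1) * phi R n := rfl
        rw [Nat.mul_assoc] at h6
        omega
      have hv' := mem_erase.1 hv
      have hv2 := mem_filter.1 hv'.2
      have huv : u < v := lt_of_le_of_ne (hu v hv2.1) (Ne.symm hv'.1)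
      obtain ⟨k, hk, S', hS', h7, h8, h9⟩ := ih (L.filter (v ≤ ·)) (Q.filter (v ≤ ·))
        (fun a ha b hb => by
          rw [mem_filter] at ha hb ⊢
          exact ⟨hL a ha.1 b hb.1, le_inf ha.2 hb.2⟩)
        (filter_subset_filter _ hQ)
        (fun x hx => by
          rw [mem_filter] at hx
          have h3 := hn x hx.1
          have h4 : (L.filter (v ≤ ·)).filter (· ≤ x) ⊂ L.filter (· ≤ x) := by
            rw [ssubset_iff_of_subset (filter_subset_filter _ (filter_subset _ _))]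
            refine ⟨u, mem_filter.2 ⟨huL, hu x (hQ hx.1)⟩, fun h => ?_⟩
            have := (mem_filter.1 (mem_filter.1 h).1).2
            exact absurd (lt_of_lt_of_le huv this) (lt_irrefl _)
          have := card_lt_card h4
          omega)
        hbig
      exact ⟨k, (mem_filter.1 hk).1, S', hS'.trans (filter_subset _ _), h7, h8, h9⟩

/-! ### Joins of the elements of a sunflower -/

/-- the join of `k` and the elements of `A` -/
noncomputable def J {X : Type*} [SemilatticeSup X] (k : X) (A : Finset X) : X :=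
  (insert k A).sup' (insert_nonempty _ _) id

section J

variable {X : Type*} [Lattice X]

theorem J_le_iff {k z : X} {A : Finset X} : J k A ≤ z ↔ k ≤ z ∧ ∀ i ∈ A, i ≤ z := by
  unfold J
  rw [Finset.sup'_le_iff]
  simp

theorem le_J (k : X) (A : Finset X) : k ≤ J k A := (J_le_iff.1 le_rfl).1

theorem mem_le_J {k i : X} {A : Finset X} (h : i ∈ A) : i ≤ J k A := (J_le_iff.1 le_rfl).2 i h

theorem J_empty (k : X) : J k ∅ = k :=
  le_antisymm (J_le_iff.2 ⟨le_rfl, by simp⟩) (le_J _ _)

theorem J_insert (k i : X) (A : Finset X) : J k (insert i A) = J k A ⊔ i := by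
  refine le_antisymm (J_le_iff.2 ⟨(le_J k A).trans le_sup_left, fun j hj => ?_⟩)
    (sup_le (J_le_iff.2 ⟨le_J _ _, fun j hj => mem_le_J (mem_insert_of_mem hj)⟩)
      (mem_le_J (mem_insert_self _ _)))
  rw [mem_insert] at hj
  rcases hj with rfl | hj
  · exact le_sup_right
  · exact (mem_le_J hj).trans le_sup_left

theorem J_mono (k : X) {A B : Finset X} (h : A ⊆ B) : J k A ≤ J k B :=
  J_le_iff.2 ⟨le_J _ _, fun _ hi => mem_le_J (h hi)⟩

theorem J_mem {p : X → Prop} (hp : ∀ a b, p a → p b → p (a ⊔ b)) {k : X} {A : Finset X}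
    (hk : p k) (hA : ∀ i ∈ A, p i) : p (J k A) := by
  unfold J
  refine Finset.sup'_mem {x | p x} (fun a ha b hb => hp a b ha hb) _ _ _ fun i hi => ?_
  rw [mem_insert] at hi
  rcases hi with rfl | hi
  · exact hk
  · exact hA i hi

/-- A distributive sublattice and a sunflower in it. -/
structure Flower (p : X → Prop) (k : X) (S : Finset X) : Prop where
  sup : ∀ a b, p a → p b → p (a ⊔ b)
  inf : ∀ a b, p a → p b → p (a ⊓ b)
  dist : ∀ a b c, p a → p b → p c → a ⊓ (b ⊔ c) = a ⊓ b ⊔ a ⊓ c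
  pk : p k
  pS : ∀ i ∈ S, p i
  lt : ∀ i ∈ S, k < i
  meet : ∀ i ∈ S, ∀ j ∈ S, i ≠ j → i ⊓ j = k

variable {p : X → Prop} {k : X} {S : Finset X}

theorem Flower.pJ (h : Flower p k S) {A : Finset X} (hA : A ⊆ S) : p (J k A) :=
  J_mem h.sup h.pk fun i hi => h.pS i (hA hi)

theorem Flower.inf_J (h : Flower p k S) {j : X} (hj : j ∈ S) {A : Finset X} (hA : A ⊆ S)
    (hjA : j ∉ A) : j ⊓ J k A = k := by
  induction A using Finset.induction_on with
  | empty => rw [J_empty]; exact inf_eq_right.2 (h.lt j hj).le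
  | insert i A hi ih =>
    rw [J_insert, h.dist j _ i (h.pS j hj) (h.pJ ((subset_insert i A).trans hA))
      (h.pS i (hA (mem_insert_self _ _))), ih ((subset_insert i A).trans hA)
      (fun h' => hjA (mem_insert_of_mem h')), h.meet j hj i (hA (mem_insert_self _ _))
      (fun h' => hjA (h' ▸ mem_insert_self _ _)), sup_idem]

theorem Flower.le_J_iff (h : Flower p k S) {j : X} (hj : j ∈ S) {A : Finset X} (hA : A ⊆ S) :
    j ≤ J k A ↔ j ∈ A := by
  refine ⟨fun h1 => ?_, mem_le_J⟩
  by_contra h2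
  have h3 := h.inf_J hj hA h2
  rw [inf_eq_left.2 h1] at h3
  exact absurd (h.lt j hj) (by rw [h3]; exact lt_irrefl _)

theorem Flower.J_inj (h : Flower p k S) {A B : Finset X} (hA : A ⊆ S) (hB : B ⊆ S)
    (hAB : J k A = J k B) : A = B := by
  ext j
  constructor
  · intro hj
    rw [← h.le_J_iff (hA hj) hB, ← hAB]
    exact mem_le_J hj
  · intro hj
    rw [← h.le_J_iff (hB hj) hA, hAB]
    exact mem_le_J hj

theorem Flower.J_insert_inf (h : Flower p k S) {i j : X} (hi : i ∈ S) (hj : j ∈ S) (hij : i ≠ j)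
    {A : Finset X} (hA : A ⊆ S) (hjA : j ∉ A) :
    J k (insert i A) ⊓ J k (insert j A) = J k A := by
  have h1 : p (J k A ⊔ i) := h.sup _ _ (h.pJ hA) (h.pS i hi)
  rw [J_insert, J_insert, h.dist _ _ _ h1 (h.pJ hA) (h.pS j hj), inf_eq_right.2 le_sup_left,
    inf_comm (J k A ⊔ i) j, h.dist _ _ _ (h.pS j hj) (h.pJ hA) (h.pS i hi), h.inf_J hj hA hjA,
    h.meet j hj i hi hij.symm, sup_idem]
  exact sup_eq_left.2 (le_J _ _)

end J

/-! ### Growth -/

theorem growth (t : ℕ) : ∃ C : ℕ, ∀ a w : ℕ, a ≤ w →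
    (∀ R, phi R t < a → 2 ^ (R - 2 * t) ≤ w) → a ^ 2 ≤ C * w := by
  -- `(R t + 1) ^ (2 t) ≤ K 2 ^ R`
  obtain ⟨K, hK⟩ : ∃ K : ℕ, ∀ R : ℕ, (R * t + 1) ^ (2 * t) ≤ K * 2 ^ R := by
    have h1 := (tendsto_pow_const_div_const_pow_of_one_lt (2 * t) (r := (2 : ℝ)) (by norm_num))
    obtain ⟨B, hB⟩ := h1.bddAbove_range
    rw [mem_upperBounds] at hB
    refine ⟨⌈B⌉₊ * 2 * (t + 1) ^ (2 * t), fun R => ?_⟩
    have h2 := hB _ ⟨R + 1, rfl⟩
    simp only at h2
    rw [div_le_iff₀ (by positivity)] at h2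
    have h3 : (R * t + 1) ^ (2 * t) ≤ (R + 1) ^ (2 * t) * (t + 1) ^ (2 * t) := by
      rw [← mul_pow]
      exact Nat.pow_le_pow_left (by nlinarith [Nat.zero_le R, Nat.zero_le t]) _
    have h4 : (R + 1) ^ (2 * t) ≤ ⌈B⌉₊ * 2 ^ (R + 1) := by
      have : (((R + 1) ^ (2 * t) : ℕ) : ℝ) ≤ ((⌈B⌉₊ * 2 ^ (R + 1) : ℕ) : ℝ) := by
        push_cast at h2 ⊢
        refine h2.trans ?_
        exact mul_le_mul_of_nonneg_right (Nat.le_ceil B) (by positivity)
      exact_mod_cast this
    calc (R * t + 1) ^ (2 * t) ≤ (R + 1) ^ (2 * t) * (t + 1) ^ (2 * t) := h3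
      _ ≤ ⌈B⌉₊ * 2 ^ (R + 1) * (t + 1) ^ (2 * t) := Nat.mul_le_mul_right _ h4
      _ = _ := by ring
  refine ⟨K * 2 ^ (2 * t + 1) + 1, fun a w haw h => ?_⟩
  by_cases hex : ∃ R, a ≤ phi R t
  · have hle : ∀ R, phi R t ≤ (R * t + 1) ^ t := fun R => phi_le R t
    obtain ⟨R, hR⟩ : ∃ R, R = Nat.find hex := ⟨_, rfl⟩
    have hR1 : a ≤ phi R t := hR ▸ Nat.find_spec hex
    rcases Nat.eq_zero_or_pos R with h0 | h0
    · have h1 : a ≤ 1 := by
        have := hR1.trans (hle R)
        rw [h0] at this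
        simpa using this
      have h2 : a ^ 2 ≤ a := by
        interval_cases a <;> norm_num
      calc a ^ 2 ≤ a := h2
        _ ≤ w := haw
        _ ≤ _ := Nat.le_mul_of_pos_left _ (by omega)
    · have h1 : phi (R - 1) t < a := by
        have := Nat.find_min hex (m := R - 1) (by omega)
        omega
      have h2 := h (R - 1) h1
      have h3 : 2 ^ R ≤ 2 ^ (2 * t + 1) * 2 ^ (R - 1 - 2 * t) := by
        rw [← pow_add]
        exact Nat.pow_le_pow_right (by norm_num) (by omega)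
      calc a ^ 2 ≤ (phi R t) ^ 2 := Nat.pow_le_pow_left hR1 2
        _ ≤ ((R * t + 1) ^ t) ^ 2 := Nat.pow_le_pow_left (hle R) 2
        _ = (R * t + 1) ^ (2 * t) := by rw [← pow_mul, Nat.mul_comm t 2]
        _ ≤ K * 2 ^ R := hK R
        _ ≤ K * (2 ^ (2 * t + 1) * w) :=
            Nat.mul_le_mul_left _ (h3.trans (Nat.mul_le_mul_left _ h2))
        _ = K * 2 ^ (2 * t + 1) * w := by ring
        _ ≤ _ := Nat.mul_le_mul_right _ (by omega)
  · push Not at hex
    exfalso
    have h1 := h (w + 2 * t) (hex _)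
    rw [Nat.add_sub_cancel] at h1
    exact absurd h1 (by have := Nat.lt_two_pow_self (n := w); omega)

end Pool.Agent.H34Z
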